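import Mathlib
import Pool.Agent.W522.M.Defs

/-!
# Special fibres without triple points: definitions
-/

set_option autoImplicit false

namespace Pool.Agent.W522.M

open Polynomial

variable {E : Type} [Field E] (D : Strata E)

/-- Three components of the special fibre do not meet. -/
def Strata.NoTriplePoints : Prop := ∀ a w (x : D.V a w), 2 ≤ a → Vanishes x

/-- The cohomology of `Y^(a+1)` vanishes in degrees greater than `2 (n - a)`. -/
def Strata.VanishesAbove (n : ℕ) : Prop := ∀ a w (x : D.V a w), 2 * n < w + a → Vanishes x

/-- Frobenius multiplies the intersection numbers on `Y^(a+1)` by `q^(n-a)`. -/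
def Strata.FrobeniusPairing (n q : ℕ) : Prop := ∀ a w v, w + v = 2 * n →
  ∀ (x : D.V a w) (y : D.V a v), ip (phi x) (phi y) = ((q ^ (n - a) : ℕ) : E) * ip x y

/-- The generalised eigenspace of Frobenius in `V a w = H^(w-a)(Y^(a+1))` for the eigenvalue
`q^((w-a)/2)`. -/
def Strata.tatePart (q a w : ℕ) : Submodule E (D.V a w) :=
  Module.End.maxGenEigenspace (D.frob a w) ((q ^ ((w - a) / 2) : ℕ) : E)

/-- Every complex root `z` of `P` is simple, except `z = c` if `e` holds. -/
def SimpleExcept (P : ℤ[X]) (c : ℕ) (e : Prop) : Prop :=
  ∀ z : ℂ, (e → z ≠ c) → aeval z P = 0 → aeval z (derivative P) ≠ 0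

/-- The characteristic polynomial of Frobenius on `V a w` is the polynomial `P`. -/
def Strata.HasFrobPoly (a w : ℕ) (P : ℤ[X]) : Prop :=
  (D.frob a w).charpoly = P.map (Int.castRingHom E)

/-- In `V 1 w = H^(w-1)(Y^(2))`, `w ≤ n`, all eigenvalues of Frobenius are simple, except `q^j` in
`H^(2j)(Y^(2))`. -/
def Strata.SimpleSpectrum (n q : ℕ) : Prop := ∀ w ≤ n, ∃ P : ℤ[X], D.HasFrobPoly 1 w P ∧
  SimpleExcept P (q ^ ((w - 1) / 2)) (Odd w)

/-- The cohomology of the strata of the special fibre of a projective strictly semistable scheme of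
relative dimension `n` over a henselian discrete valuation ring with residue field of `q` elements,
if three components do not meet. -/
structure Strata.IsDoubleSemistable (n q : ℕ) : Prop where
  complex : D.IsComplex
  bounded : D.IsBounded n
  above : D.VanishesAbove n
  lefschetz : D.IsLefschetz n
  duality : D.IsDuality n
  frobenius : D.IsFrobenius q
  frobeniusPairing : D.FrobeniusPairing n q
  generic : D.GenericLefschetz n
  noTriple : D.NoTriplePoints

variable {D}

/-- The cycles are defined over the residue field: Frobenius acts on their classes in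
`H^(2j)` as multiplication by `q^j`. -/
def Strata.Cycles.Fixed (A : D.Cycles) (q : ℕ) : Prop :=
  ∀ a w (x : D.V a w), A.Alg x → phi x = D.mul (q ^ ((w - a) / 2)) x

/-- Tate's conjecture for `Y^(a+1)` in the degrees `w - a ≤ m - a`: the generalised eigenspaces for
the eigenvalues `q^j` are spanned by classes of cycles. -/
def Strata.Cycles.TateUpTo (A : D.Cycles) (q a m : ℕ) : Prop :=
  ∀ w ≤ m, Even (w + a) → D.tatePart q a w ≤ A.span a w

/-- The standard conjecture of Hodge type for `Y^(a+1)`: if `x` is a primitive class of a cycle of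
codimension `j`, then `(-1)^j x · L^(dim - 2j) x > 0`, unless `x = 0`. -/
def Strata.Cycles.HodgeStandard (A : D.Cycles) (n a : ℕ) : Prop :=
  ∀ w ≤ n, ∀ x : D.V a w, A.Alg x → Vanishes (pow (n - w + 1) x) → x ≠ 0 →
    ∃ r : ℚ, 0 < r ∧ ip x (pow (n - w) x) = (-1) ^ ((w - a) / 2) * (r : E)

/-- The assumptions on algebraic cycles: intersection numbers are rational; Tate's conjecture for
the components (up to degree `n - 1`) and the double intersections (up to degree `n - 3`), and the
standard conjecture of Hodge type for the double intersections. -/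
structure Strata.Cycles.IsPolarised (A : D.Cycles) (n q : ℕ) : Prop where
  stable : A.Stable
  fixed : A.Fixed q
  rational : A.Rational n
  tate : A.TateUpTo q 0 (n - 1)
  tate' : A.TateUpTo q 1 (n - 2)
  hodge : A.HodgeStandard n 1

end Pool.Agent.W522.M
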