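import Mathlib
import Pool.Agent.W522.M.M5

/-! Duality on the `E_1`-terms; surjectivity from injectivity. -/

set_option autoImplicit false

namespace Pool.Agent.W522.M

open Polynomial Module Finset

variable {E : Type} [Field E] {D : Strata E} {n : ℕ}

lemma inCol_neg {p : ℤ} {a : ℕ} : InCol (-p) a ↔ InCol p a := by
  unfold InCol
  rw [Int.natAbs_neg]
  refine and_congr_right fun _ => ?_
  rw [Int.even_sub, Int.even_sub, even_neg]

lemma E1_neg (p : ℤ) (w : ℕ) : D.E1 (-p) w = D.E1 p w := by
  ext x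
  exact forall_congr' fun a => by rw [inCol_neg]

/-- the restriction to the indices `a ≤ n` -/
def resCh (D : Strata E) (n w : ℕ) : D.Ch w →ₗ[E] ∀ a : Fin (n + 1), D.V a w where
  toFun x a := x a
  map_add' _ _ := rfl
  map_smul' _ _ := rfl

lemma resCh_inj (hb : D.IsBounded n) (w : ℕ) : Function.Injective (resCh D n w) := by
  intro x y h
  funext a
  by_cases ha : a < n + 1
  · exact congrFun h ⟨a, ha⟩
  · have h1 : x a = 0 := hb.empty a w (x a) (by omega)
    have h2 : y a = 0 := hb.empty a w (y a) (by omega)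
    rw [h1, h2]

lemma finCh (hb : D.IsBounded n) (w : ℕ) : FiniteDimensional E (D.Ch w) :=
  FiniteDimensional.of_injective (resCh D n w) (resCh_inj hb w)

/-- the pairing of families -/
noncomputable def psi (D : Strata E) (n w v : ℕ) : D.Ch w →ₗ[E] D.Ch v →ₗ[E] E :=
  ∑ a ∈ range (n + 1), (D.pair a w v).compl₁₂ (LinearMap.proj a) (LinearMap.proj a)

lemma psi_apply (w v : ℕ) (x : D.Ch w) (y : D.Ch v) :
    psi D n w v x y = ∑ a ∈ range (n + 1), ip (x a) (y a) := by
  unfold psi
  rw [LinearMap.sum_apply, LinearMap.sum_apply]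
  rfl

lemma adj' (hd : D.IsDuality n) (a w v : ℕ) (x : D.V (a + 1) w) (y : D.V a v) :
    ip (gam x) y = ip x (rho y) := by
  rw [hd.symm, hd.symm a.succ w (v + 1) x (rho y), hd.adj]
  congr 2
  omega

lemma ip_zero_left {a w v : ℕ} (y : D.V a v) : ip (0 : D.V a w) y = 0 := by
  change D.pair a w v 0 y = 0
  rw [map_zero, LinearMap.zero_apply]

lemma ip_zero_right {a w v : ℕ} (x : D.V a w) : ip x (0 : D.V a v) = 0 :=
  map_zero (D.pair a w v x)

lemma ip_add_left {a w v : ℕ} (x x' : D.V a w) (y : D.V a v) :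
    ip (x + x') y = ip x y + ip x' y := by
  change D.pair a w v (x + x') y = _
  rw [map_add, LinearMap.add_apply]
  rfl

lemma ip_add_right {a w v : ℕ} (x : D.V a w) (y y' : D.V a v) :
    ip x (y + y') = ip x y + ip x y' := map_add (D.pair a w v x) y y'

lemma sum_tot_left (hd : D.IsDuality n) (hb : D.IsBounded n) {w v : ℕ} (x : D.Ch w) (y : D.Ch v) :
    ∑ a ∈ range (n + 1), ip (tot x a) (y a) = ∑ a ∈ range (n + 1), ip (x a) (tot y a) := by
  have h1 : ∑ a ∈ range (n + 1), ip (tot x a) (y a) =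
      ∑ a ∈ range n, ip (rho (x a)) (y (a + 1)) + ∑ a ∈ range (n + 1), ip (gam (x (a + 1))) (y a) := by
    rw [sum_range_succ', sum_range_succ' (fun a => ip (gam (x (a + 1))) (y a)), ← add_assoc,
      ← sum_add_distrib]
    congr 1
    exact sum_congr rfl fun a _ => ip_add_left _ _ _
  have h2 : ∑ a ∈ range (n + 1), ip (x a) (tot y a) =
      ∑ a ∈ range n, ip (x (a + 1)) (rho (y a)) + ∑ a ∈ range (n + 1), ip (x a) (gam (y (a + 1))) := by
    rw [sum_range_succ', sum_range_succ' (fun a => ip (x a) (gam (y (a + 1)))), ← add_assoc,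
      ← sum_add_distrib]
    congr 1
    exact sum_congr rfl fun a _ => ip_add_right _ _ _
  rw [h1, h2, sum_range_succ, sum_range_succ (fun a => ip (x a) (gam (y (a + 1))))]
  have e1 : x (n + 1) = 0 := hb.empty _ _ _ (by omega)
  have e2 : y (n + 1) = 0 := hb.empty _ _ _ (by omega)
  have e3 : ip (gam (x (n + 1))) (y n) = 0 := by
    rw [adj' hd, e1, ip_zero_left]
  have e4 : ip (x n) (gam (y (n + 1))) = 0 := by
    rw [← hd.adj, e2, ip_zero_right]
  rw [e3, e4, add_zero, add_zero, add_comm]
  congr 1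
  · exact sum_congr rfl fun a _ => adj' hd a w v _ _
  · exact sum_congr rfl fun a _ => hd.adj a w v _ _

lemma psi_d (hd : D.IsDuality n) (hb : D.IsBounded n) {p p' : ℤ} (hp : p + p' + 1 = 0) {w v : ℕ}
    (x : D.Ch w) (hx : x ∈ D.E1 p w) (y : D.Ch v) (hy : y ∈ D.E1 p' v) :
    psi D n (w + 1) v (D.d p w x) y = psi D n w (v + 1) x (D.d p' v y) := by
  rw [psi_apply, psi_apply]
  have hp1 : p + 1 = -p' := by linarith
  have hp2 : p' + 1 = -p := by linarith
  calc ∑ a ∈ range (n + 1), ip (D.d p w x a) (y a) = ∑ a ∈ range (n + 1), ip (tot x a) (y a) := by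
        refine sum_congr rfl fun a _ => ?_
        by_cases ha : InCol (p + 1) a
        · rw [diff_pos x ha]
        · rw [hy a (by rw [hp1, inCol_neg] at ha; exact ha), ip_zero_right, ip_zero_right]
    _ = ∑ a ∈ range (n + 1), ip (x a) (tot y a) := sum_tot_left hd hb x y
    _ = _ := by
        refine sum_congr rfl fun a _ => ?_
        by_cases ha : InCol (p' + 1) a
        · rw [diff_pos y ha]
        · rw [hx a (by rw [hp2, inCol_neg] at ha; exact ha), ip_zero_left, ip_zero_left]

/-- nondegeneracy on the columns -/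
lemma psi_nondeg (hd : D.IsDuality n) (hb : D.IsBounded n) {p : ℤ} {w v : ℕ} (hw : w + v = 2 * n)
    (x : D.Ch w) (hx : x ∈ D.E1 p w) (h : ∀ y ∈ D.E1 p v, psi D n w v x y = 0) : x = 0 := by
  classical
  funext a
  by_cases ha : InCol p a
  · by_cases han : a < n + 1
    · refine hd.nondeg a w v hw (x a) fun y => ?_
      have h1 := h (Pi.single a y) (by
        intro b hb
        rw [Pi.single_eq_of_ne]
        rintro rfl
        exact hb ha)
      rw [psi_apply, sum_eq_single a] at h1
      · rwa [Pi.single_eq_same] at h1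
      · intro b _ hb
        rw [Pi.single_eq_of_ne hb, ip_zero_right]
      · intro h
        exact absurd (mem_range.2 han) h
    · exact hb.empty a w (x a) (by omega)
  · exact hx a ha

lemma psi_symm_zero (hd : D.IsDuality n) {w v : ℕ} (x : D.Ch w) (y : D.Ch v)
    (p : ℤ) (hx : x ∈ D.E1 p w) : psi D n w v x y = 0 ↔ psi D n v w y x = 0 := by
  have h1 : ∀ a ∈ range (n + 1), ip (x a) (y a) =
      ((-1) ^ ((w : ℤ) + p).natAbs : E) * ip (y a) (x a) := by
    intro a _
    by_cases ha : InCol p a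
    · rw [hd.symm a w v (x a) (y a)]
      congr 1
      have h2 : Even ((a : ℤ) - p) := ha.2
      have h3 : Even (w + a) ↔ Even ((w : ℤ) + p).natAbs := by
        rw [Int.natAbs_even, ← Int.even_coe_nat, Nat.cast_add]
        have h4 : (w : ℤ) + a = (w + p) + (a - p) := by ring
        rw [h4, Int.even_add]
        exact ⟨fun h => h.2 h2, fun h => ⟨fun _ => h2, fun _ => h⟩⟩
      rcases Nat.even_or_odd (w + a) with h5 | h5
      · rw [h5.neg_one_pow, (h3.1 h5).neg_one_pow]
      · have h6 : Odd ((w : ℤ) + p).natAbs := by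
          rw [← Nat.not_even_iff_odd, ← h3, Nat.not_even_iff_odd]
          exact h5
        rw [h5.neg_one_pow, h6.neg_one_pow]
    · rw [hx a ha, ip_zero_left, ip_zero_right, mul_zero]
  rw [psi_apply, psi_apply, sum_congr rfl h1, ← mul_sum]
  rw [mul_eq_zero]
  constructor
  · rintro (h | h)
    · exact absurd h (pow_ne_zero _ (neg_ne_zero.2 one_ne_zero))
    · exact h
  · exact fun h => Or.inr h

end Pool.Agent.W522.M
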