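import Mathlib
import Pool.Agent.W522.N.N1

/-! Duality on the `E_1`-terms; surjectivity from injectivity. -/

set_option autoImplicit false

namespace Pool.Agent.W522.M

open Polynomial Module Finset

section

variable {E : Type*} [Field E] {X Y : Type*} [AddCommGroup X] [Module E X] [AddCommGroup Y]
  [Module E Y] [FiniteDimensional E X] [FiniteDimensional E Y]

/-- the orthogonal complement in a perfect pairing of subspaces -/
def perp (Ψ : X →ₗ[E] Y →ₗ[E] E) (B : Submodule E X) (S' : Submodule E Y) : Submodule E Y where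
  carrier := {y | y ∈ S' ∧ ∀ b ∈ B, Ψ b y = 0}
  zero_mem' := ⟨S'.zero_mem, fun b _ => map_zero _⟩
  add_mem' := fun {x y} hx hy => ⟨S'.add_mem hx.1 hy.1, fun b hb => by
    rw [map_add, hx.2 b hb, hy.2 b hb, add_zero]⟩
  smul_mem' := fun c x hx => ⟨S'.smul_mem c hx.1, fun b hb => by
    rw [map_smul, hx.2 b hb, smul_zero]⟩

theorem finrank_perp (Ψ : X →ₗ[E] Y →ₗ[E] E) (S : Submodule E X) (S' : Submodule E Y)
    (h1 : ∀ x ∈ S, (∀ y ∈ S', Ψ x y = 0) → x = 0) (h2 : ∀ y ∈ S', (∀ x ∈ S, Ψ x y = 0) → y = 0)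
    (B : Submodule E X) (hB : B ≤ S) :
    finrank E B + finrank E (perp Ψ B S') = finrank E S ∧ finrank E S = finrank E S' := by
  let T : S →ₗ[E] Dual E S' := Ψ.domRestrict₁₂ S S'
  let T' : S' →ₗ[E] Dual E S := Ψ.flip.domRestrict₁₂ S' S
  have hT : Function.Injective T := by
    rw [← LinearMap.ker_eq_bot, LinearMap.ker_eq_bot']
    intro x hx
    apply Subtype.ext
    exact h1 x x.2 fun y hy => congrArg (fun f : Dual E S' => f ⟨y, hy⟩) hx
  have hT' : Function.Injective T' := by
    rw [← LinearMap.ker_eq_bot, LinearMap.ker_eq_bot']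
    intro y hy
    apply Subtype.ext
    exact h2 y y.2 fun x hx => congrArg (fun f : Dual E S => f ⟨x, hx⟩) hy
  have e1 : finrank E S ≤ finrank E S' := by
    have := LinearMap.finrank_le_finrank_of_injective hT
    rwa [Subspace.dual_finrank_eq] at this
  have e2 : finrank E S' ≤ finrank E S := by
    have := LinearMap.finrank_le_finrank_of_injective hT'
    rwa [Subspace.dual_finrank_eq] at this
  have e3 : finrank E S' = finrank E S := le_antisymm e2 e1
  have hsT' : Function.Surjective T' := by
    rw [← LinearMap.injective_iff_surjective_of_finrank_eq_finrank]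
    · exact hT'
    · rw [Subspace.dual_finrank_eq, e3]
  let R : Dual E S →ₗ[E] Dual E B := (Submodule.inclusion hB).dualMap
  have hR : Function.Surjective R :=
    LinearMap.dualMap_surjective_of_injective (Submodule.inclusion_injective hB)
  have e4 := (R.comp T').finrank_range_add_finrank_ker
  have e5 : LinearMap.range (R.comp T') = ⊤ := LinearMap.range_eq_top.2 (hR.comp hsT')
  rw [e5, finrank_top, Subspace.dual_finrank_eq] at e4
  have e6 : (LinearMap.ker (R.comp T')).map S'.subtype = perp Ψ B S' := by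
    ext y
    constructor
    · rintro ⟨z, hz, rfl⟩
      exact ⟨z.2, fun b hb => congrArg (fun f : Dual E B => f ⟨b, hb⟩) hz⟩
    · rintro ⟨hy, h⟩
      refine ⟨⟨y, hy⟩, ?_, rfl⟩
      apply LinearMap.mem_ker.2
      ext b
      exact h b b.2
  have e7 : finrank E (perp Ψ B S') = finrank E (LinearMap.ker (R.comp T')) := by
    rw [← e6]
    exact Submodule.finrank_map_subtype_eq _ _
  exact ⟨by rw [e7, e4, e3], e3.symm⟩

end

variable {E : Type} [Field E] {D : Strata E} {n : ℕ}

/-- dimension of the cocycles, by duality -/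
theorem dim_Z (hd : D.IsDuality n) (hb : D.IsBounded n) (p : ℤ) {u v : ℕ}
    (h : u + 1 + v = 2 * n) :
    finrank E (D.B p (u + 1)) + finrank E (D.Z (-p) v) = finrank E (D.E1 p (u + 1)) := by
  have := finCh hb (u + 1)
  have := finCh hb v
  have hS' : D.E1 (-p) v = D.E1 p v := E1_neg p v
  have hB : D.B p (u + 1) ≤ D.E1 p (u + 1) := by
    rintro _ ⟨x, _, rfl⟩
    intro a ha
    exact diff_neg x (by rwa [sub_add_cancel])
  have e := (finrank_perp (psi D n (u + 1) v) (D.E1 p (u + 1)) (D.E1 (-p) v)
    (fun x hx hy => psi_nondeg hd hb h x hx fun y hy' => hy y (by rwa [hS']))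
    (fun y hy hx => psi_nondeg hd hb (p := -p) (v := u + 1) (by omega) y hy fun x hx' => by
      rw [psi_symm_zero hd y x (-p) hy]
      exact hx x (by rwa [E1_neg] at hx'))
    (D.B p (u + 1)) hB).1
  have e2 : perp (psi D n (u + 1) v) (D.B p (u + 1)) (D.E1 (-p) v) = D.Z (-p) v := by
    ext y
    constructor
    · rintro ⟨h1, h2⟩
      refine ⟨h1, LinearMap.mem_ker.2 ?_⟩
      refine psi_nondeg hd hb (p := -p + 1) (v := u) (by omega) _ ?_ fun x hx => ?_
      · intro a ha
        exact diff_neg y ha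
      · have hx' : x ∈ D.E1 (p - 1) u := by
          have : -p + 1 = -(p - 1) := by ring
          rwa [this, E1_neg] at hx
        have h3 : psi D n (u + 1) v (D.d (p - 1) u x) y = 0 := h2 _ ⟨x, hx', rfl⟩
        rw [psi_d hd hb (p := p - 1) (p' := -p) (by ring) x hx' y h1] at h3
        rw [psi_symm_zero hd _ _ (-p + 1)]
        · exact h3
        · intro a ha
          exact diff_neg y ha
    · rintro ⟨h1, h2⟩
      refine ⟨h1, ?_⟩
      rintro _ ⟨x, hx, rfl⟩
      rw [psi_d hd hb (p := p - 1) (p' := -p) (by ring) x hx y h1, LinearMap.mem_ker.1 h2, map_zero]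
  rwa [e2] at e

end Pool.Agent.W522.M
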