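import Mathlib
import Pool.Agent.W522.N.N2

/-! Surjectivity from injectivity, by duality and the hard Lefschetz theorem. -/

set_option autoImplicit false

namespace Pool.Agent.W522.M

open Polynomial Module Finset

variable {E : Type} [Field E] {D : Strata E} {n : ℕ}

lemma gam_add {a w : ℕ} (x y : D.V (a + 1) w) : gam (x + y) = gam x + gam y := map_add (D.gys a w) _ _
lemma rho_add {a w : ℕ} (x y : D.V a w) : rho (x + y) = rho x + rho y := map_add (D.res a w) _ _
lemma gam_zero {a w : ℕ} : gam (0 : D.V (a + 1) w) = 0 := map_zero (D.gys a w)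
lemma rho_zero {a w : ℕ} : rho (0 : D.V a w) = 0 := map_zero (D.res a w)
lemma lam_add {a w : ℕ} (x y : D.V a w) : lam (x + y) = lam x + lam y := map_add (D.lef a w) _ _
lemma lam_zero {a w : ℕ} : lam (0 : D.V a w) = 0 := map_zero (D.lef a w)

lemma B_le_Z (hC : D.IsComplex) (p : ℤ) (w : ℕ) : D.B p w ≤ D.Z p w := by
  cases w with
  | zero => exact bot_le
  | succ w =>
    rintro _ ⟨y, hy, rfl⟩
    have hx : ∀ b : ℕ, Even ((b : ℤ) - p) → (p ≤ 0 ∨ p.natAbs ≤ b) → D.d (p - 1) w y b = tot y b := by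
      intro b h1 h2
      by_cases h : InCol (p - 1 + 1) b
      · exact diff_pos y h
      · rw [diff_neg y h]
        have h3 : ¬ (p.natAbs ≤ b) := fun h3 => h (by rw [sub_add_cancel]; exact ⟨h3, h1⟩)
        have h4 : p ≤ 0 := h2.resolve_right h3
        have h5 : ∀ c, c ≤ b + 1 → y c = 0 := fun c hc => hy c fun h6 => by
          have := h6.1
          omega
        cases b with
        | zero =>
          change 0 = gam (y 1)
          rw [h5 1 (by omega), gam_zero]
        | succ b =>
          change 0 = rho (y b) + gam (y (b + 2))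
          rw [h5 b (by omega), h5 (b + 2) (by omega), gam_zero, rho_zero, add_zero]
    rw [mem_Z]
    refine ⟨fun a ha => diff_neg y (by rwa [sub_add_cancel]), fun a ha => ?_⟩
    have h1 : D.d (p - 1) w y (a + 1) = tot y (a + 1) := by
      refine hx (a + 1) ?_ ?_
      · have := ha.2
        have e : ((a + 1 : ℕ) : ℤ) - p = ((a : ℤ) - (p + 1)) + 2 * 1 := by push_cast; ring
        rw [e]
        exact this.add (even_two_mul _)
      · have := ha.1
        omega
    cases a with
    | zero =>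
      change gam (D.d (p - 1) w y 1) = 0
      rw [h1]
      change gam (rho (y 0) + gam (y 2)) = 0
      have h2 : y 0 = 0 := hy 0 fun h3 => by
        have h4 := ha.1
        have h5 := h3.1
        omega
      rw [h2, rho_zero, zero_add]
      exact hC.gys_gys 0 w (y 2)
    | succ a =>
      have h2 : D.d (p - 1) w y a = tot y a := by
        refine hx a ?_ ?_
        · have := ha.2
          have e : (a : ℤ) - p = (((a + 1 : ℕ) : ℤ) - (p + 1)) := by push_cast; ring
          rw [e]
          exact this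
        · have := ha.1
          by_cases h : p ≤ 0
          · exact Or.inl h
          · right
            omega
      change rho (D.d (p - 1) w y a) + gam (D.d (p - 1) w y (a + 2)) = 0
      rw [h1, h2]
      have h3 : gam (tot y (a + 2)) = gam (rho (y (a + 1))) + 0 := by
        change gam (rho (y (a + 1)) + gam (y (a + 3))) = _
        rw [gam_add, hC.gys_gys (a + 1) w (y (a + 3))]
      rw [h3]
      cases a with
      | zero =>
        change rho (gam (y 1)) + (gam (rho (y 1)) + 0) = 0
        rw [add_zero]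
        exact (add_comm _ _).trans (hC.gys_res 0 w (y 1))
      | succ a =>
        change rho (rho (y a) + gam (y (a + 2))) + (gam (rho (y (a + 2))) + 0) = 0
        rw [rho_add, hC.res_res a w (y a), zero_add, add_zero]
        exact (add_comm _ _).trans (hC.gys_res (a + 1) w (y (a + 2)))

/-- `L^r` as a linear map -/
def powL (D : Strata E) (r w : ℕ) : D.Ch w →ₗ[E] D.Ch (w + 2 * r) where
  toFun := powCh r
  map_add' _ _ := funext fun a => map_add (D.lp a w r) _ _
  map_smul' _ _ := funext fun a => map_smul (D.lp a w r) _ _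

section

variable {X Y : Type*} [AddCommGroup X] [Module E X] [AddCommGroup Y]
  [Module E Y] [FiniteDimensional E X] [FiniteDimensional E Y]

theorem dim_quot (f : X →ₗ[E] Y) (Z B : Submodule E X) (Z' B' : Submodule E Y) (hB : B ≤ Z)
    (hB' : B' ≤ Z') (h1 : ∀ x ∈ Z, f x ∈ Z') (h2 : ∀ x ∈ B, f x ∈ B')
    (h3 : ∀ x ∈ Z, f x ∈ B' → x ∈ B) (h4 : ∀ y ∈ Z', ∃ x ∈ Z, y - f x ∈ B') :
    finrank E Z + finrank E B' = finrank E Z' + finrank E B := by
  let g : Z →ₗ[E] (Z' ⧸ B'.comap Z'.subtype) :=
    (Submodule.mkQ _).comp (f.restrict h1)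
  have hg : Function.Surjective g := by
    intro q
    obtain ⟨⟨y, hy⟩, rfl⟩ := Submodule.Quotient.mk_surjective _ q
    obtain ⟨x, hx, h⟩ := h4 y hy
    refine ⟨⟨x, hx⟩, ?_⟩
    apply Eq.symm
    refine (Submodule.Quotient.eq _).2 ?_
    exact h
  have e1 := g.finrank_range_add_finrank_ker
  rw [LinearMap.range_eq_top.2 hg, finrank_top] at e1
  have e2 : finrank E (LinearMap.ker g) = finrank E B := by
    have h5 : (LinearMap.ker g).map Z.subtype = B := by
      ext x
      constructor
      · rintro ⟨⟨z, hz⟩, h, rfl⟩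
        refine h3 z hz ?_
        have h6 : Submodule.Quotient.mk (p := B'.comap Z'.subtype) (f.restrict h1 ⟨z, hz⟩) = 0 :=
          LinearMap.mem_ker.1 h
        exact (Submodule.Quotient.mk_eq_zero (B'.comap Z'.subtype)).1 h6
      · intro hx
        refine ⟨⟨x, hB hx⟩, LinearMap.mem_ker.2 ?_, rfl⟩
        change Submodule.Quotient.mk (p := B'.comap Z'.subtype) (f.restrict h1 ⟨x, hB hx⟩) = 0
        exact (Submodule.Quotient.mk_eq_zero (B'.comap Z'.subtype)).2 (h2 x hx)
    rw [← h5, Submodule.finrank_map_subtype_eq]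
  have e3 := Submodule.finrank_quotient_add_finrank (B'.comap Z'.subtype)
  have e4 : finrank E (B'.comap Z'.subtype) = finrank E B' := by
    have h5 : (B'.comap Z'.subtype).map Z'.subtype = B' := by
      rw [Submodule.map_comap_subtype]
      exact inf_eq_right.2 hB'
    rw [← Submodule.finrank_map_subtype_eq, h5]
  rw [e4] at e3
  rw [e2] at e1
  omega

end

lemma dim_Z' (hd : D.IsDuality n) (hb : D.IsBounded n) (p : ℤ) {w v : ℕ} (hw : 1 ≤ w)
    (h : w + v = 2 * n) :
    finrank E (D.B p w) + finrank E (D.Z (-p) v) = finrank E (D.E1 p w) := by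
  obtain ⟨u, rfl⟩ : ∃ u, w = u + 1 := ⟨w - 1, by omega⟩
  exact dim_Z hd hb p h

lemma dim_E1 (hd : D.IsDuality n) (hb : D.IsBounded n) (p : ℤ) {w v : ℕ}
    (h : w + v = 2 * n) : finrank E (D.E1 p w) = finrank E (D.E1 p v) := by
  have := finCh hb w
  have := finCh hb v
  exact (finrank_perp (psi D n w v) (D.E1 p w) (D.E1 p v)
    (fun x hx hy => psi_nondeg hd hb h x hx hy)
    (fun y hy hx => psi_nondeg hd hb (p := p) (v := w) (by omega) y hy fun x hx' => by
      rw [psi_symm_zero hd y x p hy]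
      exact hx x hx') ⊥ bot_le).2

/-- the two columns have the same dimension in `E_2` -/
lemma dim_E2 (hC : D.IsComplex) (hd : D.IsDuality n) (hb : D.IsBounded n)
    (hG : D.GenericLefschetz n) (p : ℤ) {w k : ℕ} (hw : 1 ≤ w) (h : w + k = n) :
    finrank E (D.Z (-p) w) + finrank E (D.B p w) = finrank E (D.Z p w) + finrank E (D.B (-p) w) := by
  have := finCh hb w
  have := finCh hb (w + 2 * k)
  obtain ⟨h1, h2, h3, h4⟩ := hG (-p) w k h
  have e1 := dim_quot (powL D k w) _ _ _ _ (B_le_Z hC (-p) w) (B_le_Z hC (-p) (w + 2 * k)) h1 h2 h3 h4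
  have e2 := dim_Z' hd hb p hw (v := w + 2 * k) (by omega)
  have e3 := dim_Z' hd hb (-p) (w := w + 2 * k) (v := w) (by omega) (by omega)
  rw [neg_neg] at e3
  have e4 := dim_E1 hd hb p (w := w) (v := w + 2 * k) (by omega)
  rw [E1_neg] at e3
  omega

/-- the monodromy-weight conjecture for `H^w` follows from injectivity -/
theorem mw_of_injective (hC : D.IsComplex) (hd : D.IsDuality n) (hb : D.IsBounded n)
    (hG : D.GenericLefschetz n) {w r : ℕ} (hw : 1 ≤ w) (h : w ≤ n) (hr : 1 ≤ r)
    (hinj : ∀ x ∈ D.Z (-(r : ℤ)) w, x ∈ D.B r w → x ∈ D.B (-(r : ℤ)) w) :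
    D.MonodromyWeight w r := by
  have := finCh hb w
  refine ⟨fun x hx => Z_le r w hx, fun x hx => B_le r w hr hx, hinj, fun y hy => ?_⟩
  have e1 := dim_E2 hC hd hb hG (r : ℤ) hw (Nat.add_sub_cancel' h)
  have e2 := Submodule.finrank_sup_add_finrank_inf_eq (D.Z (-(r : ℤ)) w) (D.B r w)
  have e3 : D.Z (-(r : ℤ)) w ⊓ D.B r w = D.B (-(r : ℤ)) w := by
    apply le_antisymm
    · exact fun x hx => hinj x hx.1 hx.2
    · exact fun x hx => ⟨B_le_Z hC _ _ hx, B_le r w hr hx⟩
  rw [e3] at e2
  have e4 : D.Z (-(r : ℤ)) w ⊔ D.B r w ≤ D.Z r w :=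
    sup_le (Z_le r w) (B_le_Z hC _ _)
  have e5 : D.Z (-(r : ℤ)) w ⊔ D.B r w = D.Z r w :=
    Submodule.eq_of_le_of_finrank_eq e4 (by omega)
  rw [SetLike.mem_coe, ← e5] at hy
  obtain ⟨x, hx, b, hb, rfl⟩ := Submodule.mem_sup.1 hy
  exact ⟨x, hx, by rw [id, add_sub_cancel_left]; exact hb⟩

end Pool.Agent.W522.M
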