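import Mathlib
import Pool.Agent.W522.N.N3

/-! Reduction of the monodromy-weight conjecture to one statement on restriction and Gysin maps. -/

set_option autoImplicit false

namespace Pool.Agent.W522.M

open Polynomial Module Finset

variable {E : Type} [Field E] {D : Strata E} {n : ℕ}

/-- injectivity of `N^(s+1)` in total degree `v + 1` -/
theorem inj_of_fill (s v : ℕ)
    (h : ∀ m : D.V s v, gam (rho m) = (0 : D.V s (v + 1 + 1)) →
      ∃ k : D.V (s + 1 + 1) v, gam k = rho m ∧ rho k = 0) (hC : D.IsComplex) :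
    ∀ x ∈ D.Z (-((s + 1 : ℕ) : ℤ)) (v + 1), x ∈ D.B ((s + 1 : ℕ) : ℤ) (v + 1) →
      x ∈ D.B (-((s + 1 : ℕ) : ℤ)) (v + 1) := by
  classical
  intro x hx hx'
  rw [mem_Z] at hx
  rw [mem_B] at hx' ⊢
  obtain ⟨y, hy, h1, h2⟩ := hx'
  -- the components of `y` above `s`
  have hcol : ∀ a : ℕ, InCol ((s + 1 : ℕ) : ℤ) a ↔ s + 1 ≤ a ∧ Even ((a : ℤ) - (s + 1 : ℕ)) := by
    intro a
    unfold InCol
    rw [Int.natAbs_natCast]
  have hx1 : x (s + 1) = rho (y s) + gam (y (s + 2)) :=
    h1 (s + 1) ((hcol _).2 ⟨le_rfl, by simp⟩)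
  have hx0 : gam (x (s + 1)) = 0 := by
    have h3 := hx.2 s (by
      unfold InCol
      constructor
      · omega
      · have : (s : ℤ) - (-((s + 1 : ℕ) : ℤ) + 1) = 2 * s := by push_cast; ring
        rw [this]
        exact even_two_mul _)
    cases s with
    | zero => exact h3
    | succ s =>
      change rho (x s) + gam (x (s + 2)) = 0 at h3
      have h4 : x s = 0 := hx.1 s fun h => by
        have := h.1
        omega
      rwa [h4, rho_zero, zero_add] at h3
  have hm : gam (rho (y s)) = (0 : D.V s (v + 1 + 1)) := by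
    have h3 : gam (x (s + 1)) = gam (rho (y s)) + gam (gam (y (s + 2))) := by
      rw [hx1]
      exact gam_add _ _
    rw [hx0, hC.gys_gys s v (y (s + 2)), add_zero] at h3
    exact h3.symm
  obtain ⟨k, hk1, hk2⟩ := h (y s) hm
  let z : D.Ch v := fun a => if a ≤ s then 0 else y a
  let z' : D.Ch v := z + Pi.single (s + 2) k
  have hz : ∀ a, s < a → z a = y a := fun a ha => if_neg (by omega)
  have hz0 : ∀ a, a ≤ s → z a = 0 := fun a ha => if_pos ha
  have hz' : ∀ a, a ≠ s + 2 → z' a = z a := fun a ha => by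
    change z a + (Pi.single (s + 2) k : D.Ch v) a = z a
    rw [Pi.single_eq_of_ne ha, add_zero]
  have hz2 : z' (s + 2) = y (s + 2) + k := by
    change z (s + 2) + (Pi.single (s + 2) k : D.Ch v) (s + 2) = _
    rw [Pi.single_eq_same, hz _ (by omega)]
  have hcm : ∀ a : ℕ, InCol (-((s + 1 : ℕ) : ℤ) - 1) a ↔ s + 2 ≤ a ∧ Even ((a : ℤ) - s) := by
    intro a
    unfold InCol
    have e1 : (-((s + 1 : ℕ) : ℤ) - 1).natAbs = s + 2 := by omega
    have e2 : (a : ℤ) - (-((s + 1 : ℕ) : ℤ) - 1) = ((a : ℤ) - s) + 2 * (s + 1) := by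
      push_cast; ring
    rw [e1, e2]
    refine and_congr_right fun _ => ?_
    rw [Int.even_add]
    simp
  have hcp : ∀ a : ℕ, InCol (((s + 1 : ℕ) : ℤ) - 1) a ↔ s ≤ a ∧ Even ((a : ℤ) - s) := by
    intro a
    unfold InCol
    have e1 : (((s + 1 : ℕ) : ℤ) - 1) = s := by push_cast; ring
    rw [e1, Int.natAbs_natCast]
  refine ⟨z', fun a ha => ?_, fun a ha => ?_, fun a ha => ?_⟩
  · rw [hcm] at ha
    by_cases h3 : a = s + 2
    · subst h3
      exact absurd ⟨le_rfl, by rw [show ((s + 2 : ℕ) : ℤ) - s = 2 * 1 by push_cast; ring]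
                               exact even_two_mul _⟩ ha
    · rw [hz' a h3]
      by_cases h4 : a ≤ s
      · exact hz0 a h4
      · rw [hz a (by omega)]
        refine hy a fun h5 => ha ?_
        rw [hcp] at h5
        refine ⟨?_, h5.2⟩
        obtain ⟨b, hb⟩ := h5.2
        omega
  · rw [inCol_neg, hcol] at ha
    rw [h1 a ((hcol a).2 ha)]
    obtain ⟨b, rfl⟩ : ∃ b, a = s + 1 + b := ⟨a - (s + 1), by omega⟩
    have hb : Even b := by
      have h3 := ha.2
      rw [show ((s + 1 + b : ℕ) : ℤ) - (s + 1 : ℕ) = b by push_cast; ring] at h3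
      exact (Int.even_coe_nat b).1 h3
    obtain ⟨c, rfl⟩ := hb
    cases c with
    | zero =>
      change rho (y s) + gam (y (s + 2)) = rho (z' s) + gam (z' (s + 2))
      rw [hz2, hz' s (by omega), hz0 s le_rfl, rho_zero, zero_add]
      have h3 : gam (y (s + 2) + k) = gam (y (s + 2)) + gam k := gam_add _ _
      rw [h3, hk1]
      exact add_comm _ _
    | succ c =>
      cases c with
      | zero =>
        change rho (y (s + 2)) + gam (y (s + 4)) = rho (z' (s + 2)) + gam (z' (s + 4))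
        rw [hz2, hz' (s + 4) (by omega), hz (s + 4) (by omega)]
        have h3 : rho (y (s + 2) + k) = rho (y (s + 2)) + rho k := rho_add _ _
        rw [h3, hk2, add_zero]
      | succ c =>
        have e : ∀ b : ℕ, s + 2 < b → z' b = y b := fun b hb => by
          rw [hz' b (by omega), hz b (by omega)]
        have e3 : s + 1 + (c + 1 + 1 + (c + 1 + 1)) = (s + 4 + (c + c)) + 1 := by ring
        rw [e3]
        change rho (y _) + gam (y _) = rho (z' _) + gam (z' _)
        rw [e _ (by omega), e _ (by omega)]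
  · rw [inCol_neg] at ha
    exact h2 a ha

/-- The monodromy-weight conjecture in degrees `≤ n` from the filling property. -/
theorem mw_of_fill (hC : D.IsComplex) (hd : D.IsDuality n) (hb : D.IsBounded n)
    (hG : D.GenericLefschetz n) (s v : ℕ) (hv : v + 1 ≤ n)
    (h : ∀ m : D.V s v, gam (rho m) = (0 : D.V s (v + 1 + 1)) →
      ∃ k : D.V (s + 1 + 1) v, gam k = rho m ∧ rho k = 0) :
    D.MonodromyWeight (v + 1) (s + 1) :=
  mw_of_injective hC hd hb hG (by omega) hv (by omega) (inj_of_fill s v h hC)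

/-- the degrees `> n` -/
theorem mw_upper (hC : D.IsComplex) (hG : D.GenericLefschetz n) {w k r : ℕ} (h : w + k = n)
    (hr : 1 ≤ r) (hm : D.MonodromyWeight w r) : D.MonodromyWeight (w + 2 * k) r := by
  obtain ⟨m1, m2, m3, m4⟩ := hm
  obtain ⟨a1, a2, a3, a4⟩ := hG (-(r : ℤ)) w k h
  obtain ⟨b1, b2, b3, b4⟩ := hG (r : ℤ) w k h
  refine ⟨fun x hx => Z_le r _ hx, fun x hx => B_le r _ hr hx, fun x hx hx' => ?_, fun y hy => ?_⟩
  · obtain ⟨z, hz, hzx⟩ := a4 x hx
    have h1 : powCh k z ∈ D.B r (w + 2 * k) := by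
      have h2 : powCh k z = x - (x - powCh k z) := by abel
      rw [h2]
      exact Submodule.sub_mem _ hx' (B_le r _ hr hzx)
    have h3 : z ∈ D.B r w := b3 z (m1 z hz) h1
    have h4 : z ∈ D.B (-(r : ℤ)) w := m3 z hz h3
    have h5 : x = (x - powCh k z) + powCh k z := by abel
    change x ∈ D.B (-(r : ℤ)) (w + 2 * k)
    rw [h5]
    exact Submodule.add_mem _ hzx (a2 z h4)
  · obtain ⟨z, hz, hzy⟩ := b4 y hy
    obtain ⟨x, hx, hxz⟩ := m4 z hz
    refine ⟨powCh k x, a1 x hx, ?_⟩
    have h1 : y - id (powCh k x) = (y - powCh k z) + powCh k (z - x) := by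
      have h2 : powCh k (z - x) = powCh k z - powCh k x := map_sub (powL D k w) z x
      rw [h2, id]
      abel
    rw [h1]
    exact Submodule.add_mem _ hzy (b2 _ hxz)

end Pool.Agent.W522.M
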