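import Mathlib
import Pool.Agent.W522.N.N4

/-! Transport between equal degrees, powers of the Lefschetz operator. -/

set_option autoImplicit false

namespace Pool.Agent.W522.M

open Polynomial Module Finset

variable {E : Type} [Field E] {D : Strata E} {n : ℕ}

/-- transport -/
def tr {a w w' : ℕ} (h : w = w') : D.V a w ≃ₗ[E] D.V a w' := h ▸ LinearEquiv.refl E _

@[simp] lemma tr_rfl {a w : ℕ} (x : D.V a w) : tr (D := D) (rfl : w = w) x = x := rfl

@[simp] lemma tr_tr {a w w' w'' : ℕ} (h : w = w') (h' : w' = w'') (x : D.V a w) :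
    tr h' (tr h x) = tr (h.trans h') x := by
  subst h; subst h'; rfl

@[simp] lemma rho_tr {a w w' : ℕ} (h : w = w') (x : D.V a w) :
    rho (tr h x) = tr (congrArg (· + 1) h) (rho x) := by
  subst h; rfl

@[simp] lemma gam_tr {a w w' : ℕ} (h : w = w') (x : D.V (a + 1) w) :
    gam (tr h x) = tr (congrArg (· + 1) h) (gam x) := by
  subst h; rfl

@[simp] lemma lam_tr {a w w' : ℕ} (h : w = w') (x : D.V a w) :
    lam (tr h x) = tr (congrArg (· + 2) h) (lam x) := by
  subst h; rfl

@[simp] lemma pow_tr {a w w' : ℕ} (h : w = w') (r : ℕ) (x : D.V a w) :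
    pow r (tr h x) = tr (congrArg (· + 2 * r) h) (pow r x) := by
  subst h; rfl

@[simp] lemma phi_tr {a w w' : ℕ} (h : w = w') (x : D.V a w) :
    phi (tr h x) = tr h (phi x) := by
  subst h; rfl

lemma ip_tr {a w w' v v' : ℕ} (h : w = w') (h' : v = v') (x : D.V a w) (y : D.V a v) :
    ip (tr h x) (tr h' y) = ip x y := by
  subst h; subst h'; rfl

lemma ip_tr_right {a w v v' : ℕ} (h' : v = v') (x : D.V a w) (y : D.V a v) :
    ip x (tr h' y) = ip x y := by
  subst h'; rfl

lemma ip_tr_left {a w w' v : ℕ} (h : w = w') (x : D.V a w) (y : D.V a v) :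
    ip (tr h x) y = ip x y := by
  subst h; rfl

lemma tr_inj {a w w' : ℕ} (h : w = w') {x y : D.V a w} (e : tr h x = tr h y) : x = y :=
  (tr h).injective e

lemma pow_zero' {a w : ℕ} (x : D.V a w) : pow 0 x = x := rfl

lemma pow_succ_eq {a w : ℕ} (r : ℕ) (x : D.V a w) : pow (r + 1) x = lam (pow r x) := rfl

lemma pow_one' {a w : ℕ} (x : D.V a w) : pow 1 x = lam x := rfl

lemma pow_pow {a w : ℕ} (r s : ℕ) (x : D.V a w) :
    pow r (pow s x) = tr (by ring) (pow (s + r) x) := by
  induction r with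
  | zero => rfl
  | succ r ih =>
    rw [pow_succ_eq, ih, lam_tr]
    rfl

lemma pow_lam {a w : ℕ} (r : ℕ) (x : D.V a w) :
    pow r (lam x) = tr (by ring) (pow (r + 1) x) := by
  rw [← pow_one', pow_pow]
  have : ∀ (s : ℕ) (h : s = r + 1) (h1 : w + 2 * s = w + 2 * 1 + 2 * r),
      tr (D := D) (a := a) h1 (pow s x) = tr (by rw [← h1, h]) (pow (r + 1) x) := by
    intro s h h1
    subst h
    rfl
  exact this _ (by ring) _

lemma pow_rho (hL : D.IsLefschetz n) {a w : ℕ} (r : ℕ) (x : D.V a w) :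
    pow r (rho x) = tr (by ring) (rho (pow r x)) := by
  induction r with
  | zero => rfl
  | succ r ih =>
    rw [pow_succ_eq, ih, lam_tr, hL.lef_res]
    rfl

lemma pow_gam (hL : D.IsLefschetz n) {a w : ℕ} (r : ℕ) (x : D.V (a + 1) w) :
    pow r (gam x) = tr (by ring) (gam (pow r x)) := by
  induction r with
  | zero => rfl
  | succ r ih =>
    rw [pow_succ_eq, ih, lam_tr, hL.lef_gys]
    rfl

lemma ip_lam (hd : D.IsDuality n) {a w v : ℕ} (x : D.V a w) (y : D.V a v) :
    ip (lam x) y = ip x (lam y) := hd.lef_adj a w v x y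

lemma ip_pow (hd : D.IsDuality n) {a w v : ℕ} (r : ℕ) (x : D.V a w) (y : D.V a v) :
    ip (pow r x) y = ip x (pow r y) := by
  induction r generalizing v with
  | zero => rfl
  | succ r ih =>
    rw [pow_succ_eq, ip_lam hd, ih, pow_lam, ip_tr_right]

/-- the powers are linear maps -/
def powM (D : Strata E) (r a w : ℕ) : D.Hom a w a (w + 2 * r) := D.lp a w r

lemma powM_apply (r a w : ℕ) (x : D.V a w) : powM D r a w x = pow r x := rfl

lemma pow_add' {a w : ℕ} (r : ℕ) (x y : D.V a w) : pow r (x + y) = pow r x + pow r y :=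
  map_add (powM D r a w) x y
lemma pow_sub' {a w : ℕ} (r : ℕ) (x y : D.V a w) : pow r (x - y) = pow r x - pow r y :=
  map_sub (powM D r a w) x y
lemma pow_zero_vec {a w : ℕ} (r : ℕ) : pow r (0 : D.V a w) = 0 :=
  map_zero (powM D r a w)
lemma rho_sub {a w : ℕ} (x y : D.V a w) : rho (x - y) = rho x - rho y := map_sub (D.res a w) _ _
lemma gam_sub {a w : ℕ} (x y : D.V (a + 1) w) : gam (x - y) = gam x - gam y :=
  map_sub (D.gys a w) _ _

lemma pow_injective (hL : D.IsLefschetz n) {a w r s : ℕ} (h : w + (r + s) = n) {x : D.V a w}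
    (hx : pow r x = 0) : x = 0 := by
  apply (hL.bij a w (r + s) h).1
  have h1 : pow s (pow r x) = 0 := by rw [hx, pow_zero_vec]
  rw [pow_pow] at h1
  have h2 : pow (r + s) x = 0 := (tr _).injective (h1.trans (map_zero _).symm)
  rw [h2, pow_zero_vec]

/-- single elements of `V a w` in a column -/
lemma single_mem_Z (p : ℤ) {a w : ℕ} (x : D.V a w) (ha : InCol p a)
    (h1 : InCol (p + 1) (a + 1) → rho x = 0)
    (h2 : ∀ b (h : b + 1 = a), InCol (p + 1) b → gam (h ▸ x : D.V (b + 1) w) = 0) :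
    (Pi.single a x : D.Ch w) ∈ D.Z p w := by
  classical
  rw [mem_Z]
  refine ⟨fun b hb => Pi.single_eq_of_ne (fun h => hb (by rwa [h])) _, fun b hb => ?_⟩
  have h3 : ∀ c, c ≠ a → (Pi.single a x : D.Ch w) c = 0 := fun c hc => Pi.single_eq_of_ne hc _
  cases b with
  | zero =>
    change gam ((Pi.single a x : D.Ch w) 1) = 0
    by_cases h4 : 1 = a
    · subst h4
      rw [Pi.single_eq_same]
      exact h2 0 rfl hb
    · rw [h3 1 h4, gam_zero]
  | succ b =>
    change rho ((Pi.single a x : D.Ch w) b) + gam ((Pi.single a x : D.Ch w) (b + 2)) = 0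
    by_cases h4 : b = a
    · subst h4
      rw [Pi.single_eq_same, h3 (b + 2) (by omega), gam_zero, add_zero]
      exact h1 hb
    · rw [h3 b h4, rho_zero, zero_add]
      by_cases h5 : b + 2 = a
      · subst h5
        rw [Pi.single_eq_same]
        exact h2 (b + 1) rfl hb
      · rw [h3 _ h5, gam_zero]

end Pool.Agent.W522.M
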