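import Mathlib
import Pool.Agent.W522.C.C4
import Pool.Agent.W522.N.N5

/-! Linear algebra: simple eigenvalues. -/

set_option autoImplicit false

namespace Pool.Agent.W522.M

open Polynomial Module Pool.Agent.W522.C

variable {E V : Type*} [Field E] [Infinite E] [AddCommGroup V] [Module E V] [FiniteDimensional E V]

omit [Infinite E] [FiniteDimensional E V] in
lemma aeval_comm {W : Type*} [AddCommGroup W] [Module E W] (T : V →ₗ[E] W) (F : Module.End E V)
    (G : Module.End E W) (h : ∀ y, T (F y) = G (T y)) (p : E[X]) (y : V) :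
    T (aeval F p y) = aeval G p (T y) := by
  induction p using Polynomial.induction_on' with
  | add p q hp hq => rw [map_add, map_add, LinearMap.add_apply, map_add, hp, hq,
      LinearMap.add_apply]
  | monomial n c =>
    rw [aeval_monomial, aeval_monomial, Module.End.mul_apply, Module.End.mul_apply,
      Module.algebraMap_end_apply, Module.algebraMap_end_apply, map_smul]
    congr 1
    induction n with
    | zero => rfl
    | succ n ih =>
      rw [pow_succ', pow_succ', Module.End.mul_apply, Module.End.mul_apply, ← ih, h]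

omit [Infinite E] in
lemma dvd_charpoly_of_kill (F : Module.End E V) {f : E[X]} (hf : Irreducible f) {x : V}
    (hx : x ≠ 0) (h : aeval F f x = 0) : f ∣ F.charpoly := by
  by_contra hn
  obtain ⟨a, b, hab⟩ := (EuclideanDomain.dvd_or_coprime f F.charpoly hf).resolve_left hn
  apply hx
  have h1 : aeval F (a * f + b * F.charpoly) x = x := by rw [hab, map_one, Module.End.one_apply]
  rw [map_add, map_mul, map_mul, LinearMap.add_apply, Module.End.mul_apply, Module.End.mul_apply,
    h, LinearMap.aeval_self_charpoly, LinearMap.zero_apply, map_zero, map_zero, add_zero] at h1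
  exact h1.symm

omit [Infinite E] in
lemma exists_irr {W : Type*} [AddCommGroup W] [Module E W] (F : Module.End E W) (h : E[X])
    (hh : h ≠ 0) (x : W) (hx : x ≠ 0) (h0 : aeval F h x = 0) :
    ∃ f u : E[X], Irreducible f ∧ f ∣ h ∧ aeval F u x ≠ 0 ∧ aeval F f (aeval F u x) = 0 := by
  induction h using WfDvdMonoid.induction_on_irreducible with
  | zero => exact absurd rfl hh
  | unit u hu =>
    obtain ⟨v, hv⟩ := hu.exists_left_inv
    exfalso
    apply hx
    have h1 : aeval F (v * u) x = x := by rw [hv, map_one, Module.End.one_apply]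
    rw [map_mul, Module.End.mul_apply, h0, map_zero] at h1
    exact h1.symm
  | mul a f ha hf ih =>
    by_cases h1 : aeval F a x = 0
    · obtain ⟨g, u, h2, h3, h4⟩ := ih ha h1
      exact ⟨g, u, h2, h3.mul_left f, h4⟩
    · refine ⟨f, a, hf, dvd_mul_right _ _, h1, ?_⟩
      rw [← Module.End.mul_apply, ← map_mul]
      exact h0

lemma charpoly_range (F T : Module.End E V) (hc : Commute F T) :
    ∃ (h1 : LinearMap.ker T ≤ (LinearMap.ker T).comap F)
      (h2 : LinearMap.range T ≤ (LinearMap.range T).comap F),
      F.charpoly = (F.restrict h1).charpoly * (F.restrict h2).charpoly := by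
  have e : ∀ y, T (F y) = F (T y) := fun y => congrArg (fun f : Module.End E V => f y) hc.eq.symm
  have hK : LinearMap.ker T ≤ (LinearMap.ker T).comap F := by
    intro y hy
    rw [LinearMap.mem_ker] at hy
    rw [Submodule.mem_comap, LinearMap.mem_ker, e, hy, map_zero]
  have hR : LinearMap.range T ≤ (LinearMap.range T).comap F := by
    rintro _ ⟨x, rfl⟩
    exact ⟨F x, e x⟩
  refine ⟨hK, hR, ?_⟩
  rw [charpoly_eq_mul F (LinearMap.ker T) hK]
  congr 1
  rw [← LinearEquiv.charpoly_conj T.quotKerEquivRange]
  congr 1
  apply LinearMap.ext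
  rintro ⟨_, x, rfl⟩
  rw [LinearEquiv.conj_apply_apply]
  have h3 : T.quotKerEquivRange.symm ⟨T x, x, rfl⟩ = Submodule.Quotient.mk x := by
    rw [LinearEquiv.symm_apply_eq]
    rfl
  rw [h3]
  apply Subtype.ext
  exact e x

omit [Infinite E] in
lemma restrict_aeval {W : Type*} [AddCommGroup W] [Module E W] (F : Module.End E W)
    (U : Submodule E W) (hU : U ≤ U.comap F) (p : E[X]) (w : U) :
    ((aeval (F.restrict hU) p w : U) : W) = aeval F p (w : W) := by
  induction p using Polynomial.induction_on' with
  | add p q hp hq =>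
    rw [map_add, map_add, LinearMap.add_apply, LinearMap.add_apply, ← hp, ← hq]
    rfl
  | monomial n c =>
    rw [aeval_monomial, aeval_monomial, Module.End.mul_apply, Module.End.mul_apply,
      Module.algebraMap_end_apply, Module.algebraMap_end_apply]
    change c • ((((F.restrict hU) ^ n) w : U) : W) = c • (F ^ n) (w : W)
    congr 1
    induction n with
    | zero => rfl
    | succ n ih =>
      rw [pow_succ', pow_succ', Module.End.mul_apply, Module.End.mul_apply, ← ih]
      rfl

/-- If the operator `T` commutes with `F`, and `x = T b`, `T x = 0`, where `x` is killed by a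
polynomial all whose irreducible factors are simple factors of the characteristic polynomial, then
`x = 0`. -/
theorem eq_zero_of_simple (F T : Module.End E V) (hc : Commute F T) (h : E[X]) (hh : h ≠ 0)
    (hs : ∀ f : E[X], Irreducible f → f ∣ h → ¬ f ^ 2 ∣ F.charpoly) (x b : V) (hx : x = T b)
    (hTx : T x = 0) (hhx : aeval F h x = 0) : x = 0 := by
  by_contra hne
  obtain ⟨f, u, hf, hfh, hu, hfu⟩ := exists_irr F h hh x hne hhx
  obtain ⟨h1, h2, he⟩ := charpoly_range F T hc
  have hcu : ∀ y, T (aeval F u y) = aeval F u (T y) :=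
    aeval_comm T F F (fun y => congrArg (fun f : Module.End E V => f y) hc.eq.symm) u
  refine hs f hf hfh ?_
  rw [he, pow_two]
  refine mul_dvd_mul ?_ ?_
  · refine dvd_charpoly_of_kill (F.restrict h1) hf (x := ⟨aeval F u x, ?_⟩) ?_ ?_
    · rw [LinearMap.mem_ker, hcu, hTx, map_zero]
    · exact fun h => hu (congrArg Subtype.val h)
    · apply Subtype.ext
      rw [restrict_aeval]
      exact hfu
  · refine dvd_charpoly_of_kill (F.restrict h2) hf (x := ⟨aeval F u x, ?_⟩) ?_ ?_
    · exact ⟨aeval F u b, by rw [hcu, ← hx]⟩
    · exact fun h => hu (congrArg Subtype.val h)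
    · apply Subtype.ext
      rw [restrict_aeval]
      exact hfu

end Pool.Agent.W522.M
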