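import Mathlib
import Pool.Agent.W522.N.Defs
import Pool.Agent.W522.N.N6

/-! No triple points: consequences of the hard Lefschetz theorem for the generic fibre. -/

set_option autoImplicit false

namespace Pool.Agent.W522.M

open Polynomial Module Finset

variable {E : Type} [Field E] {D : Strata E} {n : ℕ}

lemma inCol_one' (b : ℕ) (h : InCol 1 b) : 1 ≤ b := h.1

lemma single_ne {a w b : ℕ} (x : D.V a w) (h : b ≠ a) : (Pi.single a x : D.Ch w) b = 0 :=
  Pi.single_eq_of_ne h _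

lemma single_same {a w : ℕ} (x : D.V a w) : (Pi.single a x : D.Ch w) a = x :=
  Pi.single_eq_same _ _

lemma powCh_single {a w : ℕ} (r : ℕ) (x : D.V a w) :
    powCh r (Pi.single a x : D.Ch w) = Pi.single a (pow r x) := by
  funext b
  by_cases h : b = a
  · subst h
    change pow r ((Pi.single b x : D.Ch w) b) = _
    rw [single_same, single_same]
  · change pow r ((Pi.single a x : D.Ch w) b) = _
    rw [single_ne x h, single_ne _ h, pow_zero_vec]

lemma mem_B_iff {p : ℤ} {w w' : ℕ} (h : w' + 1 = w) (x : D.Ch w) : x ∈ D.B p w ↔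
    ∃ y : D.Ch w', (∀ a, ¬ InCol (p - 1) a → y a = 0) ∧ (∀ a, InCol p a → x a = tr h (tot y a)) ∧
      ∀ a, ¬ InCol p a → x a = 0 := by
  subst h
  exact mem_B x

section
variable (hN : D.NoTriplePoints)
include hN

lemma mem_Z1 {w : ℕ} (y : D.V 1 w) : (Pi.single 1 y : D.Ch w) ∈ D.Z 1 w := by
  refine single_mem_Z 1 y (inCol_one.2 (by decide)) (fun _ => hN 2 _ _ le_rfl) ?_
  intro b hb hc
  have := hc.1
  omega

lemma mem_Zm1 {w : ℕ} (y : D.V 1 w) (h : gam y = 0) : (Pi.single 1 y : D.Ch w) ∈ D.Z (-1) w := by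
  refine single_mem_Z (-1) y (inCol_neg_one.2 (by decide)) (fun _ => hN 2 _ _ le_rfl) ?_
  intro b hb hc
  have : b = 0 := by omega
  subst this
  exact h

lemma gam_of_mem_Zm1 {w : ℕ} {z : D.Ch w} (hz : z ∈ D.Z (-1) w) : gam (z 1) = 0 := by
  rw [mem_Z] at hz
  exact hz.2 0 (by rw [neg_add_cancel, inCol_zero]; decide)

lemma mem_B1 {w w' : ℕ} (h : w' + 1 = w) (m : D.V 0 w') :
    (Pi.single 1 (tr h (rho m)) : D.Ch w) ∈ D.B 1 w := by
  rw [mem_B_iff h]
  refine ⟨Pi.single 0 m, fun a ha => ?_, fun a ha => ?_, fun a ha => ?_⟩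
  · refine single_ne _ fun h0 => ha ?_
    subst h0
    rw [sub_self, inCol_zero]
    decide
  · by_cases ha1 : a = 1
    · subst ha1
      rw [single_same]
      congr 1
      change rho m = rho ((Pi.single 0 m : D.Ch w') 0) + gam ((Pi.single 0 m : D.Ch w') 2)
      rw [single_same, single_ne m (by decide), gam_zero, add_zero]
    · rw [inCol_one] at ha
      have h2 : 2 ≤ a := by
        rcases ha with ⟨b, rfl⟩
        omega
      rw [hN a _ (tr h _) h2, single_ne _ ha1]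
  · refine single_ne _ fun h0 => ha ?_
    subst h0
    rw [inCol_one]
    decide

lemma of_mem_B1 {w w' : ℕ} (h : w' + 1 = w) {y : D.V 1 w}
    (hy : (Pi.single 1 y : D.Ch w) ∈ D.B 1 w) : ∃ m : D.V 0 w', y = tr h (rho m) := by
  obtain ⟨z, -, h2, -⟩ := (mem_B_iff h _).1 hy
  refine ⟨z 0, ?_⟩
  have h3 := h2 1 (inCol_one.2 (by decide))
  rw [single_same] at h3
  rw [h3]
  congr 1
  change rho (z 0) + gam (z 2) = rho (z 0)
  rw [hN 2 _ (z 2) le_rfl, gam_zero, add_zero]

lemma B_neg_one {w : ℕ} {z : D.Ch w} (hz : z ∈ D.B (-1) w) (hw : 1 ≤ w) : z 1 = 0 := by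
  obtain ⟨w', hw'⟩ : ∃ w', w' + 1 = w := ⟨w - 1, by omega⟩
  obtain ⟨y, h1, h2, -⟩ := (mem_B_iff hw' _).1 hz
  rw [h2 1 (inCol_neg_one.2 (by decide))]
  change tr hw' (rho (y 0) + gam (y 2)) = 0
  have h3 : y 0 = 0 := h1 0 (by
    intro h
    have := h.1
    omega)
  rw [h3, hN 2 _ (y 2) le_rfl, gam_zero, rho_zero, add_zero, map_zero]

/-- the hard Lefschetz theorem in the column `1`: if `L^k y` is a restriction, so is `y` -/
lemma col_one (hG : D.GenericLefschetz n) {w k w' u : ℕ} (hu : w + k = n) (y : D.V 1 w)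
    (h : w' + 1 = w + 2 * k) (m : D.V 0 w') (hy : pow k y = tr h (rho m)) (h' : u + 1 = w) :
    ∃ m' : D.V 0 u, y = tr h' (rho m') := by
  obtain ⟨-, -, h3, -⟩ := hG 1 w k hu
  refine of_mem_B1 hN h' (h3 _ (mem_Z1 hN y) ?_)
  rw [powCh_single, hy]
  exact mem_B1 hN h m

/-- the hard Lefschetz theorem in the column `-1` -/
lemma col_neg_one (hG : D.GenericLefschetz n) (hL : D.IsLefschetz n) {w k : ℕ} (hu : w + k = n)
    (hw : 1 ≤ w) (y : D.V 1 w) (hy : gam (pow k y) = 0) : gam y = 0 := by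
  obtain ⟨-, -, -, h4⟩ := hG (-1) w k hu
  obtain ⟨z, hz, h5⟩ := h4 _ (mem_Zm1 hN (pow k y) hy)
  have h6 := B_neg_one hN h5 (by omega)
  have h7 : pow k y - pow k (z 1) = 0 := by
    have : (Pi.single 1 (pow k y) - powCh k z : D.Ch (w + 2 * k)) 1 =
      (Pi.single 1 (pow k y) : D.Ch (w + 2 * k)) 1 - pow k (z 1) := rfl
    rw [this, single_same] at h6
    exact h6
  have h8 : y = z 1 := (hL.bij 1 w k hu).1 (sub_eq_zero.1 h7)
  rw [h8]
  exact gam_of_mem_Zm1 hN hz

/-- the hard Lefschetz theorem in the column `0` -/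
lemma col_zero (hG : D.GenericLefschetz n) {w k w' : ℕ} (hu : w + k = n) (m : D.V 0 w)
    (hm : rho (pow k m) = 0) (h : w' + 1 = w + 2 * k) :
    ∃ (m0 : D.V 0 w) (b : D.V 1 w'), rho m0 = 0 ∧ pow k m = pow k m0 + tr h (gam b) := by
  obtain ⟨-, -, -, h4⟩ := hG 0 w k hu
  have hz : (Pi.single 0 (pow k m) : D.Ch (w + 2 * k)) ∈ D.Z 0 (w + 2 * k) := by
    refine single_mem_Z 0 _ (inCol_zero.2 (by decide)) (fun _ => hm) ?_
    intro b hb
    omega
  obtain ⟨z, hz, h5⟩ := h4 _ hz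
  obtain ⟨y, -, h2, -⟩ := (mem_B_iff h _).1 h5
  have h6 := h2 0 (inCol_zero.2 (by decide))
  rw [SetLike.mem_coe, mem_Z] at hz
  have h7 := hz.2 1 (by rw [zero_add, inCol_one]; decide)
  refine ⟨z 0, y 1, ?_, ?_⟩
  · change rho (z 0) + gam (z 2) = 0 at h7
    rwa [hN 2 _ (z 2) le_rfl, gam_zero, add_zero] at h7
  · have h8 : (Pi.single 0 (pow k m) - powCh k z : D.Ch (w + 2 * k)) 0 =
      (Pi.single 0 (pow k m) : D.Ch (w + 2 * k)) 0 - pow k (z 0) := rfl
    rw [h8, single_same] at h6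
    change pow k m - pow k (z 0) = tr h (gam (y 1)) at h6
    rw [← h6]
    abel

/-- Induction step: an element of `im ρ ∩ ker γ` is primitive if the same intersection is zero two
degrees lower. -/
lemma primitive_of (hG : D.GenericLefschetz n) (hL : D.IsLefschetz n) (hA : D.VanishesAbove n)
    {v k : ℕ} (hv : v + 1 + k = n) (m : D.V 0 v) (hm : gam (rho m) = 0)
    (hI : ∀ u, u + 2 = v → ∀ m' : D.V 0 u, gam (rho m') = 0 → rho m' = 0) :
    pow (k + 1) (rho m) = 0 := by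
  by_cases h2 : 2 ≤ v
  · obtain ⟨u, hu⟩ : ∃ u, u + 2 = v := ⟨v - 2, by omega⟩
    subst hu
    have e : u + 1 + 2 * (k + 2) = u + 2 + 1 + 2 * (k + 1) := by ring
    obtain ⟨y, hy⟩ := (hL.bij 1 (u + 1) (k + 2) (by omega)).2 (tr e.symm (pow (k + 1) (rho m)))
    have hy1 : ∃ m' : D.V 0 u, y = tr rfl (rho m') := by
      refine col_one hN hG (w := u + 1) (k := k + 2) (by omega) y
        (w' := u + 2 + 2 * (k + 1)) (by ring) (pow (k + 1) m) ?_ rfl
      rw [hy, pow_rho hL, tr_tr]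
    obtain ⟨m', hm'⟩ := hy1
    rw [tr_rfl] at hm'
    have hy2 : gam y = 0 := by
      refine col_neg_one hN hG hL (w := u + 1) (k := k + 2) (by omega) (by omega) y ?_
      rw [hy, gam_tr]
      have h3 : gam (pow (k + 1) (rho m)) = 0 := by
        have h4 := pow_gam hL (k + 1) (rho m)
        rw [hm, pow_zero_vec] at h4
        exact (tr _).injective (h4.symm.trans (map_zero _).symm)
      rw [h3, map_zero]
    rw [hm'] at hy2
    have hy3 := hI u rfl m' hy2
    rw [hm', hy3, pow_zero_vec] at hy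
    exact (tr _).injective (hy.symm.trans (map_zero _).symm)
  · exact hA 1 _ _ (by omega)

end

end Pool.Agent.W522.M
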