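import Mathlib
import Pool.Agent.W522.N.N7

/-! No triple points: the part of the cohomology with simple eigenvalues. -/

set_option autoImplicit false

namespace Pool.Agent.W522.M

open Polynomial Module Finset

variable {E : Type} [Field E] {D : Strata E} {n q : ℕ}

lemma phi_smul {a w : ℕ} (c : E) (x : D.V a w) : phi (c • x) = c • phi x := map_smul (D.frob a w) c x
lemma gam_smul {a w : ℕ} (c : E) (x : D.V (a + 1) w) : gam (c • x) = c • gam x :=
  map_smul (D.gys a w) c x
lemma pow_smul' {a w : ℕ} (r : ℕ) (c : E) (x : D.V a w) : pow r (c • x) = c • pow r x :=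
  map_smul (powM D r a w) c x

lemma phi_gam (hF : D.IsFrobenius q) {a w : ℕ} (x : D.V (a + 1) w) :
    phi (gam x) = (q : E) • gam (phi x) := hF.gys a w x

lemma phi_rho (hF : D.IsFrobenius q) {a w : ℕ} (x : D.V a w) :
    phi (rho x) = rho (phi x) := hF.res a w x

lemma phi_pow (hF : D.IsFrobenius q) {a w : ℕ} (r : ℕ) (x : D.V a w) :
    phi (pow r x) = (q : E) ^ r • pow r (phi x) := by
  induction r with
  | zero => rw [pow_zero, one_smul]; rfl
  | succ r ih =>
    have h1 : phi (lam (pow r x)) = (q : E) • lam (phi (pow r x)) := hF.lef a _ (pow r x)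
    rw [pow_succ_eq, h1, ih]
    have h2 : lam ((q : E) ^ r • pow r (phi x)) = (q : E) ^ r • lam (pow r (phi x)) :=
      map_smul (D.lef a _) _ _
    rw [h2, smul_smul, pow_succ', pow_succ_eq]

/-- The part with simple eigenvalues. -/
theorem nt_zero [CharZero E] (hN : D.NoTriplePoints) (hq : q ≠ 0) (hF : D.IsFrobenius q)
    (hb : D.IsLefschetz n) (hG : D.GenericLefschetz n) {v k : ℕ} (hv : v + 1 + k = n)
    (m : D.V 0 v) (hm : gam (rho m) = 0) (hp : pow (k + 1) (rho m) = 0) (h : E[X]) (hh : h ≠ 0)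
    (hx : aeval (D.frob 1 (v + 1)) h (rho m) = 0)
    (hs : ∀ f : E[X], Irreducible f → f ∣ h → ¬ f ^ 2 ∣ (D.frob 1 (v + 1)).charpoly) :
    rho m = 0 := by
  have e1 : v + 1 + 2 * k + 1 = v + 2 * (k + 1) := by ring
  have hbij := hb.bij 0 v (k + 1) (by omega)
  let l := LinearEquiv.ofBijective (powM D (k + 1) 0 v) hbij
  have hl : ∀ x, l x = pow (k + 1) x := fun x => rfl
  let g : D.V 1 (v + 1 + 2 * k) →ₗ[E] D.V 0 (v + 1 + 2 * k + 1) := D.gys 0 _
  let U : D.V 1 (v + 1) →ₗ[E] D.V 0 (v + 2 * (k + 1)) :=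
    (tr e1).toLinearMap.comp (g.comp (powM D k 1 (v + 1)))
  have hU : ∀ b, U b = tr e1 (gam (pow k b)) := fun b => rfl
  let T : D.V 1 (v + 1) →ₗ[E] D.V 0 v := l.symm.toLinearMap.comp U
  have hT : ∀ b, pow (k + 1) (T b) = U b := fun b => l.apply_symm_apply (U b)
  let r : D.V 0 v →ₗ[E] D.V 1 (v + 1) := D.res 0 v
  have hq' : (q : E) ^ (k + 1) ≠ 0 := pow_ne_zero _ (Nat.cast_ne_zero.2 hq)
  have hTF : ∀ b, phi (T b) = T (phi b) := by
    intro b
    apply hbij.1
    change pow (k + 1) (phi (T b)) = pow (k + 1) (T (phi b))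
    apply smul_right_injective _ hq'
    change (q : E) ^ (k + 1) • pow (k + 1) (phi (T b)) = (q : E) ^ (k + 1) • pow (k + 1) (T (phi b))
    rw [← phi_pow hF, hT, hT, hU, hU, phi_tr, phi_gam hF, phi_pow hF, gam_smul, smul_smul,
      ← pow_succ', map_smul]
  have hcomm : Commute (D.frob 1 (v + 1)) (r.comp T) := by
    apply LinearMap.ext
    intro b
    change phi (rho (T b)) = rho (T (phi b))
    rw [phi_rho hF, hTF]
  have hrm : rho (pow (k + 1) m) = 0 := by
    have h1 := pow_rho hb (k + 1) m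
    rw [hp] at h1
    exact (tr _).injective (h1.symm.trans (map_zero _).symm)
  obtain ⟨m0, b, hm0, h2⟩ := col_zero hN hG (w := v) (k := k + 1) (w' := v + 1 + 2 * k)
    (by omega) m hrm e1
  obtain ⟨b', rfl⟩ := (hb.bij 1 (v + 1) k hv).2 b
  have h3 : m = m0 + T b' := by
    apply hbij.1
    change pow (k + 1) m = pow (k + 1) (m0 + T b')
    rw [pow_add', hT, hU]
    exact h2
  refine eq_zero_of_simple (D.frob 1 (v + 1)) (r.comp T) hcomm h hh hs (rho m) b' ?_ ?_ hx
  · change rho m = rho (T b')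
    have h4 : rho (m0 + T b') = rho m0 + rho (T b') := rho_add _ _
    rw [hm0] at h4
    rw [← h3] at h4
    exact h4.trans (zero_add _)
  · change rho (T (rho m)) = 0
    have h5 : T (rho m) = 0 := by
      apply hbij.1
      change pow (k + 1) (T (rho m)) = pow (k + 1) 0
      have h6 : gam (pow k (rho m)) = 0 := by
        have h7 := pow_gam hb k (rho m)
        rw [hm, pow_zero_vec] at h7
        exact (tr _).injective (h7.symm.trans (map_zero _).symm)
      rw [hT, hU, h6, map_zero, pow_zero_vec]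
    rw [h5, rho_zero]

end Pool.Agent.W522.M
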