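import Mathlib
import Pool.Agent.W522.N.N8

/-! No triple points: the part of the cohomology spanned by algebraic cycles. -/

set_option autoImplicit false

namespace Pool.Agent.W522.M

open Polynomial Module Finset

variable {E : Type} [Field E] {D : Strata E} {n q : ℕ}

lemma rho_smul {a w : ℕ} (c : E) (x : D.V a w) : rho (c • x) = c • rho x :=
  map_smul (D.res a w) c x

lemma ip_smul_right {a w v : ℕ} (c : E) (x : D.V a w) (y : D.V a v) :
    ip x (c • y) = c * ip x y := map_smul (D.pair a w v x) c y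

lemma ip_sub_left {a w v : ℕ} (x x' : D.V a w) (y : D.V a v) :
    ip (x - x') y = ip x y - ip x' y := by
  change D.pair a w v (x - x') y = _
  rw [map_sub, LinearMap.sub_apply]
  rfl

lemma ip_smul_left {a w v : ℕ} (c : E) (x : D.V a w) (y : D.V a v) :
    ip (c • x) y = c * ip x y := by
  change D.pair a w v (c • x) y = _
  rw [map_smul, LinearMap.smul_apply]
  rfl

lemma alg_pow {A : D.Cycles} (hA : A.Stable) {a w : ℕ} (r : ℕ) {x : D.V a w} (hx : A.Alg x) :
    A.Alg (pow r x) := by
  induction r with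
  | zero => exact hx
  | succ r ih => exact hA.lef _ _ _ ih

/-- a vector is zero if it is orthogonal to the classes of cycles and Frobenius acts on it by the
dual eigenvalue -/
theorem eq_zero_of_tate (hd : D.IsDuality n) {a w v : ℕ} (h : w + v = 2 * n) (c : E)
    (Y : D.V a v) (hY : ∀ z : D.V a w, ip (phi z) Y = c * ip z Y)
    (S : Set (D.V a w)) (hS : Module.End.maxGenEigenspace (D.frob a w) c ≤ Submodule.span E S)
    (h0 : ∀ z ∈ S, ip z Y = 0) : Y = 0 := by
  classical
  apply hd.nondeg a v w (by omega)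
  intro z
  rw [hd.symm]
  have key : ip z Y = 0 := by
    let G : Module.End E (D.V a w) := D.frob a w - c • (1 : Module.End E (D.V a w))
    obtain ⟨N, hN, hN1⟩ :=
      (G.eventually_isCompl_ker_pow_range_pow.and (Filter.eventually_ge_atTop 1)).exists
    obtain ⟨z0, h0', z1, ⟨y, hy⟩, rfl⟩ := Submodule.mem_sup.1
      (hN.codisjoint.eq_top ▸ Submodule.mem_top : z ∈ LinearMap.ker (G ^ N) ⊔ LinearMap.range (G ^ N))
    rw [ip_add_left]
    have e1 : ip z0 Y = 0 := by
      have h1 : z0 ∈ Submodule.span E S :=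
        hS ((Module.End.mem_maxGenEigenspace _ _ _).2 ⟨N, LinearMap.mem_ker.1 h0'⟩)
      clear h0'
      induction h1 using Submodule.span_induction with
      | mem x hx => exact h0 x hx
      | zero => exact ip_zero_left _
      | add x y _ _ h1 h2 => rw [ip_add_left, h1, h2, add_zero]
      | smul c x _ h1 => rw [ip_smul_left, h1, mul_zero]
    have e2 : ip z1 Y = 0 := by
      obtain ⟨M, rfl⟩ : ∃ M, N = M + 1 := ⟨N - 1, by omega⟩
      rw [← hy, pow_succ', Module.End.mul_apply]
      change ip (phi ((G ^ M) y) - c • (G ^ M) y) Y = 0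
      rw [ip_sub_left, ip_smul_left, hY, sub_self]
    rw [e1, e2, add_zero]
  rw [key, mul_zero]

/-- The part spanned by algebraic cycles. -/
theorem tate_zero [CharZero E] (hq : q ≠ 0) (hF : D.IsFrobenius q) (hP : D.FrobeniusPairing n q)
    (hA : D.VanishesAbove n) (hd : D.IsDuality n) (hL : D.IsLefschetz n)
    {A : D.Cycles} (hC : A.IsPolarised n q) {v k : ℕ} (hv : v + 1 + k = n) (hev : Even v)
    (m : D.V 0 v) (hmC : m ∈ A.span 0 v) (hm : gam (rho m) = 0)
    (hp : pow (k + 1) (rho m) = 0) : rho m = 0 := by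
  classical
  letI : ∀ a w, Module ℚ (D.V a w) := fun a w => Module.compHom _ (algebraMap ℚ E)
  let Cq : ∀ a w, Submodule ℚ (D.V a w) := fun a w =>
    { (A.C a w) with
      smul_mem' := fun r x hx => A.smul a w r x hx }
  let J2 := {p : Σ w'', D.V 1 w'' // A.Alg p.2 ∧ p.1 + (v + 1 + 2 * (k + 1)) = 2 * n}
  let r0 : D.V 0 v →ₗ[E] D.V 1 (v + 1) := D.res 0 v
  let φ : (Cq 0 v) ⊕ J2 → D.V 0 v →ₗ[E] E := fun j => match j with
    | Sum.inl m' => ((D.pair 1 (v + 1) (v + 1 + 2 * k)) (r0 m')).comp ((powM D k 1 (v + 1)).comp r0)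
    | Sum.inr p => ((D.pair 1 p.1.1 (v + 1 + 2 * (k + 1))) p.1.2).comp
        ((powM D (k + 1) 1 (v + 1)).comp r0)
  have hφ1 : ∀ (m' : Cq 0 v) x, φ (Sum.inl m') x = ip (rho (m' : D.V 0 v)) (pow k (rho x)) :=
    fun _ _ => rfl
  have hφ2 : ∀ (p : J2) x, φ (Sum.inr p) x = ip p.1.2 (pow (k + 1) (rho x)) := fun _ _ => rfl
  have hdesc := span_descent (Cq 0 v) φ (by
    rintro (m' | p) c hc
    · rw [hφ1]
      exact hC.rational 1 _ _ (by omega) _ _ (hC.stable.res 0 v _ m'.2)
        (alg_pow hC.stable k (hC.stable.res 0 v _ hc))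
    · rw [hφ2]
      exact hC.rational 1 _ _ p.2.2 _ _ p.2.1
        (alg_pow hC.stable (k + 1) (hC.stable.res 0 v _ hc))) m hmC (by
    rintro (m' | p)
    · rw [hφ1, hd.adj]
      have h7 := pow_gam hL k (rho m)
      rw [hm, pow_zero_vec] at h7
      have h8 : gam (pow k (rho m)) = 0 := (tr _).injective (h7.symm.trans (map_zero _).symm)
      rw [h8, ip_zero_right]
    · rw [hφ2, hp, ip_zero_right])
  have hle : Submodule.span E {c | c ∈ Cq 0 v ∧ ∀ j, φ j c = 0} ≤ LinearMap.ker r0 := by
    rw [Submodule.span_le]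
    rintro c ⟨hc, hj⟩
    change rho c = 0
    have hy : pow (k + 1) (rho c) = 0 := by
      by_cases h2 : 2 ≤ v
      · obtain ⟨u, rfl⟩ : ∃ u, v = u + 2 := ⟨v - 2, by omega⟩
        obtain ⟨j, hj'⟩ := hev
        have hc1 : phi c = (q : E) ^ (u / 2 + 1) • c := by
          have h1 : phi c = D.mul (q ^ ((u + 2 - 0) / 2)) c := hC.fixed 0 (u + 2) c hc
          rw [h1]
          unfold Strata.mul
          have h3 : (u + 2 - 0) / 2 = u / 2 + 1 := by omega
          rw [h3, Nat.cast_pow]
        refine eq_zero_of_tate hd (w := u + 1) (by omega) ((q ^ ((u + 1 - 1) / 2) : ℕ) : E) _ ?_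
          (A.C 1 (u + 1)) (hC.tate' (u + 1) (by omega) ?_) ?_
        · intro z
          have h3 := hP 1 (u + 1) (u + 2 + 1 + 2 * (k + 1)) (by omega) z (pow (k + 1) (rho c))
          rw [phi_pow hF, phi_rho hF, hc1, rho_smul, pow_smul', ip_smul_right, ip_smul_right] at h3
          have h5 : ((q ^ (n - 1) : ℕ) : E) =
              (q : E) ^ (k + 1) * ((q : E) ^ (u / 2 + 1) * (q : E) ^ (u / 2)) := by
            rw [Nat.cast_pow, ← pow_add, ← pow_add]
            congr 1
            omega
          rw [h5, mul_assoc, mul_assoc] at h3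
          have h6 : (q : E) ≠ 0 := Nat.cast_ne_zero.2 hq
          have h7 := mul_left_cancel₀ (pow_ne_zero _ h6) (mul_left_cancel₀ (pow_ne_zero _ h6) h3)
          rw [h7]
          congr 1
          rw [Nat.cast_pow]
          congr 1
        · rw [Nat.even_iff]
          omega
        · intro z hz
          exact hj (Sum.inr ⟨⟨u + 1, z⟩, hz, by
            change u + 1 + (u + 2 + 1 + 2 * (k + 1)) = 2 * n
            omega⟩)
      · exact hA 1 _ _ (by omega)
    by_contra hne
    have hk : n - (v + 1) = k := by omega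
    have h1 := hC.hodge (v + 1) (by omega) (rho c) (hC.stable.res 0 v c hc)
    rw [hk] at h1
    obtain ⟨r, hr0, hr⟩ := h1 hy hne
    have h2 := hj (Sum.inl ⟨c, hc⟩)
    rw [hφ1, hr] at h2
    rcases mul_eq_zero.1 h2 with h3 | h3
    · exact absurd h3 (pow_ne_zero _ (neg_ne_zero.2 one_ne_zero))
    · exact hr0.ne' (Rat.cast_eq_zero.1 h3)
  exact hle hdesc

end Pool.Agent.W522.M
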