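import Mathlib
import Pool.Agent.W522.N.N9
import Pool.Agent.W522.M.M4

/-! No triple points: assembly. -/

set_option autoImplicit false

namespace Pool.Agent.W522.M

open Polynomial Module Finset

section

variable {E : Type*} [Field E] [CharZero E]

lemma simple_except {P : ℤ[X]} {c : ℕ} {e : Prop} (h : SimpleExcept P c e) (hP : P ≠ 0) (f : E[X])
    (hf : Irreducible f) (hc : e → ¬ f ∣ X - C (c : E)) : ¬ f ^ 2 ∣ P.map (Int.castRingHom E) := by
  intro h2
  have h1 : f ∣ P.map (Int.castRingHom E) := (dvd_pow_self f two_ne_zero).trans h2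
  by_cases he : e
  · exact simple_of_common (P₁ := P) (P₂ := P) (q := c)
      (fun z hz h0 _ => h z (fun _ => hz) h0) hP f hf (hc he) h1 h2
  · by_cases h0 : f ∣ X - C ((0 : ℕ) : E)
    · have h3 : ¬ f ∣ X - C ((1 : ℕ) : E) := by
        intro h4
        have h5 := dvd_sub h0 h4
        have h6 : (X - C ((0 : ℕ) : E) - (X - C ((1 : ℕ) : E)) : E[X]) = 1 := by
          rw [Nat.cast_zero, Nat.cast_one, C_0, C_1]
          ring
        rw [h6] at h5
        exact hf.not_isUnit (isUnit_of_dvd_one h5)
      exact simple_of_common (P₁ := P) (P₂ := P) (q := 1)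
        (fun z _ h0 _ => h z (fun h => absurd h he) h0) hP f hf h3 h1 h2
    · exact simple_of_common (P₁ := P) (P₂ := P) (q := 0)
        (fun z _ h0 _ => h z (fun h => absurd h he) h0) hP f hf h0 h1 h2

end

variable {E : Type} [Field E] [CharZero E] {D : Strata E} {n q : ℕ}

theorem double_fill (hq : q ≠ 0) (hD : D.IsDoubleSemistable n q) {A : D.Cycles}
    (hC : A.IsPolarised n q) (hS : D.SimpleSpectrum n q) (v : ℕ) :
    v + 1 ≤ n → ∀ m : D.V 0 v, gam (rho m) = 0 → rho m = 0 := by
  induction v using Nat.strong_induction_on with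
  | _ v ih =>
  intro hv
  obtain ⟨k, hk⟩ : ∃ k, v + 1 + k = n := ⟨n - (v + 1), by omega⟩
  have hprim : ∀ m : D.V 0 v, gam (rho m) = 0 → pow (k + 1) (rho m) = 0 := fun m hm =>
    primitive_of hD.noTriple hD.generic hD.lefschetz hD.above hk m hm
      fun u hu m' hm' => ih u (by omega) (by omega) m' hm'
  obtain ⟨P, hP1, hP2⟩ := hS (v + 1) hv
  have hP0 : P ≠ 0 := by
    rintro rfl
    unfold Strata.HasFrobPoly at hP1
    rw [Polynomial.map_zero] at hP1
    exact (LinearMap.charpoly_monic (D.frob 1 (v + 1))).ne_zero hP1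
  have hP1' : (D.frob 1 (v + 1)).charpoly = P.map (Int.castRingHom E) := hP1
  by_cases hev : Even v
  · -- even degree: split off the Tate part
    set c : E := ((q ^ (v / 2) : ℕ) : E) with hc
    let G0 : Module.End E (D.V 0 v) := D.frob 0 v - c • (1 : Module.End E (D.V 0 v))
    let G2 : Module.End E (D.V 0 (v + 2)) :=
      D.frob 0 (v + 2) - ((q : E) * c) • (1 : Module.End E (D.V 0 (v + 2)))
    obtain ⟨N, ⟨hA, hB⟩, hN1⟩ := ((G0.eventually_isCompl_ker_pow_range_pow.and
      G2.eventually_isCompl_ker_pow_range_pow).and (Filter.eventually_ge_atTop 1)).exists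
    have hGG : ∀ m : D.V 0 v, G2 (gam (rho m)) = (q : E) • gam (rho (G0 m)) := by
      intro m
      change phi (gam (rho m)) - ((q : E) * c) • gam (rho m) =
        (q : E) • gam (rho (phi m - c • m))
      rw [phi_gam hD.frobenius, phi_rho hD.frobenius, rho_sub, gam_sub, rho_smul, gam_smul,
        smul_sub, smul_smul]
    have hGN : ∀ (M : ℕ) (m : D.V 0 v), (G2 ^ M) (gam (rho m)) =
        (q : E) ^ M • gam (rho ((G0 ^ M) m)) := by
      intro M
      induction M with
      | zero => intro m; rw [pow_zero, pow_zero, one_smul]; rfl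
      | succ M ihM =>
        intro m
        rw [pow_succ, Module.End.mul_apply, hGG, map_smul, ihM, smul_smul, ← pow_succ',
          pow_succ G0, Module.End.mul_apply]
    intro m hm
    obtain ⟨m0, h0, m1, h1, rfl⟩ := Submodule.mem_sup.1
      (hA.codisjoint.eq_top ▸ Submodule.mem_top :
        m ∈ LinearMap.ker (G0 ^ N) ⊔ LinearMap.range (G0 ^ N))
    have hm' : gam (rho m0) + gam (rho m1) = 0 := by
      rw [← gam_add, ← rho_add]
      exact hm
    have hq' : (q : E) ≠ 0 := Nat.cast_ne_zero.2 hq
    have e0 : gam (rho m0) ∈ LinearMap.ker (G2 ^ N) := by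
      rw [LinearMap.mem_ker, hGN, LinearMap.mem_ker.1 h0, rho_zero, gam_zero, smul_zero]
    have e1 : gam (rho m1) ∈ LinearMap.range (G2 ^ N) := by
      obtain ⟨y, rfl⟩ := h1
      refine ⟨((q : E) ^ N)⁻¹ • gam (rho y), ?_⟩
      rw [map_smul, hGN, smul_smul, inv_mul_cancel₀ (pow_ne_zero _ hq'), one_smul]
    have f1 : gam (rho m1) = 0 := by
      have e2 : gam (rho m1) ∈ LinearMap.ker (G2 ^ N) := by
        rw [eq_neg_of_add_eq_zero_right hm']
        exact Submodule.neg_mem _ e0
      exact (Submodule.mem_bot E).1 (hB.disjoint.eq_bot ▸ (⟨e2, e1⟩ :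
        gam (rho m1) ∈ LinearMap.ker (G2 ^ N) ⊓ LinearMap.range (G2 ^ N)))
    have f0 : gam (rho m0) = 0 := by rwa [f1, add_zero] at hm'
    have g0 : rho m0 = 0 := by
      refine tate_zero hq hD.frobenius hD.frobeniusPairing hD.above hD.duality hD.lefschetz hC hk hev
        m0 (hC.tate v (by omega) (by simpa using hev) ?_) f0 (hprim m0 f0)
      exact (Module.End.mem_maxGenEigenspace _ _ _).2 ⟨N, LinearMap.mem_ker.1 h0⟩
    have g1 : rho m1 = 0 := by
      obtain ⟨h, hh, hnd⟩ := Polynomial.exists_eq_pow_rootMultiplicity_mul_and_not_dvd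
        (D.frob 0 v).charpoly (LinearMap.charpoly_monic _).ne_zero c
      have hh0 : h ≠ 0 := by
        rintro rfl
        exact hnd (dvd_zero _)
      -- `G0` is injective on the range
      have hinj : ∀ (M : ℕ) (y : D.V 0 v), y ∈ LinearMap.range (G0 ^ N) → (G0 ^ M) y = 0 → y = 0 := by
        intro M
        induction M with
        | zero => intro y _ h; exact h
        | succ M ihM =>
          intro y hy hM
          apply ihM y hy
          have h3 : (G0 ^ M) y ∈ LinearMap.ker (G0 ^ N) := by
            obtain ⟨N', rfl⟩ : ∃ N', N = N' + 1 := ⟨N - 1, by omega⟩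
            rw [LinearMap.mem_ker, pow_succ, Module.End.mul_apply, ← Module.End.mul_apply G0,
              ← pow_succ', hM, map_zero]
          have h4 : (G0 ^ M) y ∈ LinearMap.range (G0 ^ N) := by
            obtain ⟨z, rfl⟩ := hy
            refine ⟨(G0 ^ M) z, ?_⟩
            rw [← Module.End.mul_apply, ← Module.End.mul_apply, ← pow_add, ← pow_add, add_comm]
          exact (Submodule.mem_bot E).1 (hA.disjoint.eq_bot ▸ (⟨h3, h4⟩ :
            (G0 ^ M) y ∈ LinearMap.ker (G0 ^ N) ⊓ LinearMap.range (G0 ^ N)))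
      have hG0 : G0 = aeval (D.frob 0 v) (X - C c) := by
        rw [map_sub, aeval_X, aeval_C]
        rfl
      have hkill : aeval (D.frob 0 v) h m1 = 0 := by
        apply hinj ((D.frob 0 v).charpoly.rootMultiplicity c)
        · obtain ⟨z, rfl⟩ := h1
          refine ⟨aeval (D.frob 0 v) h z, ?_⟩
          rw [hG0, ← map_pow, ← Module.End.mul_apply, ← Module.End.mul_apply, ← map_mul, ← map_mul,
            mul_comm]
        · rw [hG0, ← map_pow, ← Module.End.mul_apply, ← map_mul, ← hh,
            LinearMap.aeval_self_charpoly, LinearMap.zero_apply]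
      refine nt_zero hD.noTriple hq hD.frobenius hD.lefschetz hD.generic hk m1 f1 (hprim m1 f1) h hh0
        ?_ ?_
      · have h3 := aeval_comm (D.res 0 v) (D.frob 0 v) (D.frob 1 (v + 1))
          (fun y => (hD.frobenius.res 0 v y).symm) h m1
        rw [hkill, map_zero] at h3
        exact h3.symm
      · intro f hf hfh
        rw [hP1']
        refine simple_except hP2 hP0 f hf fun _ hfc => hnd ?_
        have h3 : (v + 1 - 1) / 2 = v / 2 := by rw [Nat.add_sub_cancel]
        rw [h3, ← hc] at hfc
        exact (hf.associated_of_dvd (irreducible_X_sub_C c) hfc).symm.dvd.trans hfh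
    have h2 : rho (m0 + m1) = rho m0 + rho m1 := rho_add m0 m1
    rw [g0, g1] at h2
    exact h2.trans (add_zero _)
  · intro m hm
    refine nt_zero hD.noTriple hq hD.frobenius hD.lefschetz hD.generic hk m hm (hprim m hm)
      (D.frob 1 (v + 1)).charpoly (LinearMap.charpoly_monic _).ne_zero ?_ ?_
    · rw [LinearMap.aeval_self_charpoly, LinearMap.zero_apply]
    · intro f hf _
      rw [hP1']
      refine simple_except hP2 hP0 f hf fun ho => absurd ?_ hev
      rcases ho with ⟨j, hj⟩
      exact ⟨j, by omega⟩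

/-- The monodromy-weight conjecture in all degrees, if there are no triple points. -/
theorem double (hq : q ≠ 0) (hD : D.IsDoubleSemistable n q) (A : D.Cycles)
    (hC : A.IsPolarised n q) (hS : D.SimpleSpectrum n q) (w r : ℕ) (hw : w ≤ 2 * n) (hr : 1 ≤ r) :
    D.MonodromyWeight w r := by
  have main : ∀ w ≤ n, D.MonodromyWeight w r := by
    intro w hw
    obtain ⟨s, rfl⟩ : ∃ s, r = s + 1 := ⟨r - 1, by omega⟩
    cases w with
    | zero =>
      have h0 : ∀ (p : ℤ) (x : D.Ch 0), 1 ≤ p.natAbs → x ∈ D.E1 p 0 → x = 0 := by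
        intro p x hp hx
        funext a
        by_cases ha : InCol p a
        · have h1 := ha.1
          exact hD.bounded.neg a 0 (x a) (by omega)
        · exact hx a ha
      refine ⟨fun x hx => Z_le (s + 1) 0 hx, fun x hx => B_le (s + 1) 0 hr hx, fun x hx _ => ?_,
        fun y hy => ?_⟩
      · have h1 := h0 _ x (by omega) (hx.1)
        rw [h1]
        exact Submodule.zero_mem _
      · have h1 := h0 _ y (by omega) (hy.1)
        refine ⟨0, Submodule.zero_mem _, ?_⟩
        rw [h1, id, sub_zero]
        exact Submodule.zero_mem _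
    | succ v =>
      refine mw_of_fill hD.complex hD.duality hD.bounded hD.generic s v hw fun m hm => ?_
      refine ⟨0, ?_, rho_zero⟩
      rw [gam_zero]
      cases s with
      | zero => exact (double_fill hq hD hC hS v hw m hm).symm
      | succ s => exact (hD.noTriple _ _ (rho m) (by omega)).symm
  by_cases h : w ≤ n
  · exact main w h
  · obtain ⟨u, k, hu, rfl⟩ : ∃ u k, u + k = n ∧ w = u + 2 * k :=
      ⟨2 * n - w, w - n, by omega, by omega⟩
    exact mw_upper hD.complex hD.generic hu hr (main u (by omega))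

end Pool.Agent.W522.M
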