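import Mathlib
import Pool.Agent.W522.M.M6
import Pool.Agent.W522.N.N9

/-! `H^3` in all dimensions: the part with simple common eigenvalues. -/

set_option autoImplicit false

namespace Pool.Agent.W522.M

open Polynomial Module

variable {E : Type} [Field E] {D : Strata E} {N q : ℕ}

/-- the hard Lefschetz theorem for the generic fibre, from `E_2^(0,2)` to `E_2^(0,2n-2)`,
`n = N + 3` -/
lemma hs_of_generic' (hG : D.GenericLefschetz (N + 3)) (a : D.V 0 2)
    (ha : rho (pow (N + 1) a) = 0) : ∃ (a0 : D.V 0 2) (b : D.V 1 (2 + 2 * N + 1)) (y : D.V 2 2),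
      pow (N + 1) a = pow (N + 1) a0 + gam b ∧ rho a0 + gam y = 0 := by
  classical
  obtain ⟨-, -, -, h⟩ := hG 0 2 (N + 1) (by ring)
  have hY : (Pi.single 0 (pow (N + 1) a) : D.Ch (2 + 2 * (N + 1))) ∈ D.Z 0 (2 + 2 * (N + 1)) := by
    refine single_mem_Z 0 _ (inCol_zero.2 (by decide)) (fun _ => ha) ?_
    intro b hb
    omega
  obtain ⟨X, hX, hXY⟩ := h _ hY
  rw [SetLike.mem_coe, mem_Z] at hX
  have hXY' : Pi.single 0 (pow (N + 1) a) - powCh (N + 1) X ∈ D.B 0 ((2 + 2 * N + 1) + 1) := hXY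
  obtain ⟨b, -, hb, -⟩ := (mem_B _).1 hXY'
  refine ⟨X 0, b 1, X 2, ?_, ?_⟩
  · have h1 := hb 0 (inCol_zero.2 (by decide))
    have h2 : (Pi.single 0 (pow (N + 1) a) - powCh (N + 1) X : D.Ch (2 + 2 * (N + 1))) 0 =
      (Pi.single 0 (pow (N + 1) a) : D.Ch (2 + 2 * (N + 1))) 0 - pow (N + 1) (X 0) := rfl
    rw [single_same] at h2
    have h3 : pow (N + 1) a - pow (N + 1) (X 0) = gam (b 1) := h2.symm.trans h1
    rw [← h3]
    abel
  · exact hX.2 1 (by rw [zero_add, inCol_one]; decide)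

variable [CharZero E]

/-- the non-Tate part -/
theorem key_non_tate' (hq : q ≠ 0) (hL : D.IsLefschetz (N + 3)) (hF : D.IsFrobenius q)
    (hS : D.IsSplit (N + 3) q) (hG : D.GenericLefschetz (N + 3))
    (hs : ∀ f : E[X], Irreducible f → ¬ f ∣ X - C (q : E) → f ∣ (D.frob 0 2).charpoly →
      ¬ f ^ 2 ∣ (D.frob 1 3).charpoly)
    (m : D.V 0 2) (hm : gam (rho m) = 0) :
    ∃ m0 : D.V 0 2, m0 ∈ Module.End.maxGenEigenspace (D.frob 0 2) (q : E) ∧ rho m = rho m0 := by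
  have hq' : (q : E) ≠ 0 := Nat.cast_ne_zero.2 hq
  have e1 : 3 + 2 * N = 2 + 2 * N + 1 := by ring
  let r02 : D.V 0 2 →ₗ[E] D.V 1 3 := D.res 0 2
  let g13 : D.V 1 3 →ₗ[E] D.V 0 (2 + 2 * (N + 1)) :=
    (D.gys 0 (2 + 2 * N + 1)).comp ((tr e1).toLinearMap.comp (powM D N 1 3))
  have hg13 : ∀ b, g13 b = gam (tr e1 (pow N b)) := fun b => rfl
  let l02 : D.V 0 2 →ₗ[E] D.V 0 (2 + 2 * (N + 1)) := powM D (N + 1) 0 2
  let r04 : D.V 0 (2 + 2 * (N + 1)) →ₗ[E] D.V 1 (2 + 2 * (N + 1) + 1) := D.res 0 _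
  let g22 : D.V 2 2 →ₗ[E] D.V 1 3 := D.gys 1 2
  let F4 : Module.End E (D.V 0 (2 + 2 * (N + 1))) :=
    ((q : E) ^ N)⁻¹ • D.frob 0 (2 + 2 * (N + 1))
  have hqN : ((q : E) ^ N) ≠ 0 := pow_ne_zero _ hq'
  obtain ⟨m0, ⟨k, hk⟩, h⟩ := non_tate (D.frob 0 2) F4 (D.frob 1 3) r02 g13 l02
    (hL.bij 0 2 (N + 1) (by ring)) r04 g22 (q : E) hq' (fun x => hF.res 0 2 x)
    (fun y => by
      change ((q : E) ^ N)⁻¹ • phi (g13 y) = (q : E) • g13 (phi y)
      rw [hg13, hg13, phi_gam hF, phi_tr, phi_pow hF, map_smul, gam_smul, smul_smul, smul_smul]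
      congr 1
      field_simp)
    (fun x => by
      change ((q : E) ^ N)⁻¹ • phi (pow (N + 1) x) = (q : E) • pow (N + 1) (phi x)
      rw [phi_pow hF, smul_smul, pow_succ]
      congr 1
      field_simp)
    (fun x => by
      have h1 : phi (rho x) = rho (phi x) := hF.res 0 _ x
      have h2 : phi (rho x) = D.mul (q ^ (N + 3 - 1)) (rho x) := hS.top 1 _ (rho x) (by ring)
      have h4 : D.mul (q ^ (N + 3 - 1)) (rho x) = ((q : E) ^ (N + 2)) • rho x := by
        unfold Strata.mul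
        rw [Nat.cast_pow]
        rfl
      change rho (((q : E) ^ N)⁻¹ • phi x) = (q : E) ^ 2 • rho x
      rw [rho_smul, ← h1, h2, h4, smul_smul]
      congr 1
      rw [pow_add, ← mul_assoc, inv_mul_cancel₀ hqN, one_mul])
    (fun y => by
      have h1 : phi (gam y) = D.mul q (gam (phi y)) := hF.gys 1 2 y
      have h2 : phi y = y := hS.bottom 2 y
      rw [h2] at h1
      exact h1)
    (fun a ha => by
      obtain ⟨a0, b, y, h1, h2⟩ := hs_of_generic' hG a ha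
      obtain ⟨b', hb'⟩ := (hL.bij 1 3 N (by ring)).2 (tr e1.symm b)
      refine ⟨a0, b', y, ?_, h2⟩
      change pow (N + 1) a = pow (N + 1) a0 + g13 b'
      rw [hg13, hb', tr_tr, h1]
      rfl) hs m (by
      change gam (tr e1 (pow N (rho m))) = 0
      have h7 := pow_gam hL N (rho m)
      rw [hm, pow_zero_vec] at h7
      have h8 : gam (pow N (rho m)) = 0 := (tr _).injective (h7.symm.trans (map_zero _).symm)
      rw [gam_tr, h8, map_zero])
  exact ⟨m0, (Module.End.mem_maxGenEigenspace _ _ _).2 ⟨k, hk⟩, h⟩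

end Pool.Agent.W522.M
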