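import Mathlib
import Pool.Agent.W522.N.H1

/-! `H^3` in all dimensions: the part spanned by algebraic cycles. -/

set_option autoImplicit false

namespace Pool.Agent.W522.M

open Polynomial Module

section

variable {E : Type*} [Field E] [CharZero E]

variable {V00 V02 V04 V06 V11 V13 V15 V22 V24 V33 W24 : Type*}
  [AddCommGroup W24] [Module E W24]
  [AddCommGroup V00] [Module E V00] [AddCommGroup V02] [Module E V02] [AddCommGroup V04]
  [Module E V04] [AddCommGroup V06] [Module E V06] [AddCommGroup V11] [Module E V11]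
  [AddCommGroup V13] [Module E V13] [AddCommGroup V15] [Module E V15] [AddCommGroup V22]
  [Module E V22] [AddCommGroup V24] [Module E V24] [AddCommGroup V33] [Module E V33]
  [Module ℚ V00] [Module ℚ V11] [Module ℚ V22] [Module ℚ V02] [Module ℚ V13]

/-- The rational part of the statement. -/
theorem rational_part'
    (r00 : V00 →ₗ[E] V11) (r02 : V02 →ₗ[E] V13) (r04 : V04 →ₗ[E] V15) (r11 : V11 →ₗ[E] V22)
    (r13 : V13 →ₗ[E] W24) (r22 : V22 →ₗ[E] V33)
    (g11 : V11 →ₗ[E] V02) (g13 : V13 →ₗ[E] V04) (g15 : V15 →ₗ[E] V06) (g22 : V22 →ₗ[E] V13)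
    (g24 : V24 →ₗ[E] V15)
    (l00 : V00 →ₗ[E] V02) (l02 : V02 →ₗ[E] V04) (l04 : V04 →ₗ[E] V06) (l11 : V11 →ₗ[E] V13)
    (l13 : V13 →ₗ[E] V15) (l22 : V22 →ₗ[E] V24)
    (p06 : V00 →ₗ[E] V06 →ₗ[E] E) (p24 : V02 →ₗ[E] V04 →ₗ[E] E) (p15 : V11 →ₗ[E] V15 →ₗ[E] E)
    (p33 : V13 →ₗ[E] V13 →ₗ[E] E) (q24 : V22 →ₗ[E] V24 →ₗ[E] E)
    (C00 : Submodule ℚ V00) (C11 : Submodule ℚ V11) (C22 : Submodule ℚ V22)
    (C02 : Submodule ℚ V02) (C13 : Submodule ℚ V13)
    [FiniteDimensional ℚ C11] [FiniteDimensional ℚ C22]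
    -- complex
    (rr1 : ∀ x, r11 (r00 x) = 0) (rr2 : ∀ x, r13 (r02 x) = 0) (rr3 : ∀ x, r22 (r11 x) = 0)
    (gr1 : ∀ x, g22 (r11 x) + r02 (g11 x) = 0) (rg : ∀ k, r22 k = 0 → r13 (g22 k) = 0)
    -- Lefschetz
    (lr0 : ∀ x, l11 (r00 x) = r02 (l00 x)) (lr2 : ∀ x, l13 (r02 x) = r04 (l02 x))
    (lg1 : ∀ x, l02 (g11 x) = g13 (l11 x)) (lg3 : ∀ x, l04 (g13 x) = g15 (l13 x))
    (lg2 : ∀ x, l13 (g22 x) = g24 (l22 x))
    -- duality
    (a0 : ∀ s y, p15 (r00 s) y = p06 s (g15 y)) (a4 : ∀ t w, p15 t (r04 w) = p24 (g11 t) w)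
    (a1 : ∀ t y, p15 t (g24 y) = q24 (r11 t) y) (a3 : ∀ z k, r13 z = 0 → p33 z (g22 k) = 0)
    (la : ∀ t z, p15 t (l13 z) = p33 (l11 t) z) (symm : ∀ x y, p33 x y = p33 y x)
    (n11 : ∀ y, (∀ t ∈ C11, p15 t y = 0) → y = 0) (n00 : ∀ y, (∀ s ∈ C00, p06 s y = 0) → y = 0)
    -- rational classes
    (s00 : ∀ x ∈ C00, r00 x ∈ C11) (s11 : ∀ x ∈ C11, r11 x ∈ C22) (t11 : ∀ x ∈ C11, g11 x ∈ C02)
    (u00 : ∀ x ∈ C00, l00 x ∈ C02) (s02 : ∀ x ∈ C02, r02 x ∈ C13) (t22 : ∀ x ∈ C22, g22 x ∈ C13)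
    (rat1 : ∀ x ∈ C11, ∀ y ∈ C11, ∃ r : ℚ, p15 x (l13 (l11 y)) = r)
    (rat2 : ∀ x ∈ C22, ∀ y ∈ C22, ∃ r : ℚ, q24 x (l22 y) = r)
    (pos1 : ∀ x ∈ C11, p15 x (l13 (l11 x)) = 0 → x = 0)
    (pos2 : ∀ x ∈ C22, q24 x (l22 x) = 0 → x = 0)
    (top1 : ∀ z ∈ C13, ∃ t ∈ C11, l13 z = l13 (l11 t))
    (top2 : ∀ k ∈ C22, ∃ t ∈ C11, g24 (l22 k) = l13 (l11 t))
    (H0 : ∀ d ∈ C02, l04 (l02 d) = 0 → p24 d (l02 d) = 0 → d = 0)
    (H1 : ∀ z ∈ C13, l13 z = 0 → p33 z z = 0 → z = 0)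
    (m : V02) (hm : m ∈ C02) (N1 : ∀ m' ∈ C02, p33 (r02 m) (r02 m') = 0) :
    ∃ k ∈ C22, r22 k = 0 ∧ r02 m = g22 k := by
  have symb : ∀ t t', p15 t (l13 (l11 t')) = p15 t' (l13 (l11 t)) := by
    intro t t'
    rw [la, la, symm]
  have L1 := proj_of_pos p15 (l13.comp l11) C11 rat1 pos1
  have L2 := proj_of_pos q24 l22 C22 rat2 pos2
  -- elements of ker r11 in C11 are orthogonal to l13 (r02 m)
  have step0 : ∀ v ∈ C11, r11 v = 0 → p15 v (l13 (r02 m)) = 0 := by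
    intro v hv hrv
    let U : Submodule ℚ V11 :=
      { carrier := {t | ∃ s ∈ C00, r00 s = t}
        zero_mem' := ⟨0, C00.zero_mem, map_zero _⟩
        add_mem' := by
          rintro _ _ ⟨s, hs, rfl⟩ ⟨s', hs', rfl⟩
          exact ⟨s + s', C00.add_mem hs hs', map_add _ _ _⟩
        smul_mem' := by
          rintro c _ ⟨s, hs, rfl⟩
          exact ⟨c • s, C00.smul_mem c hs, map_rat_smul r00 c s⟩ }
    obtain ⟨_, ⟨s, hs, rfl⟩, hu⟩ := L1 U (by rintro _ ⟨s, hs, rfl⟩; exact s00 s hs) v hv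
    set t := v - r00 s with ht
    have hvt : v = r00 s + t := by rw [ht]; abel
    have htC : t ∈ C11 := C11.sub_mem hv (s00 s hs)
    have hrt : r11 t = 0 := by rw [ht, map_sub, hrv, rr1, sub_zero]
    have e1 : l04 (l02 (g11 t)) = 0 := by
      apply n00
      intro s' hs'
      rw [lg1, lg3, ← a0]
      exact hu _ ⟨s', hs', rfl⟩
    have hd : r02 (g11 t) = 0 := by
      have := gr1 t
      rwa [hrt, map_zero, zero_add] at this
    have e2 : p24 (g11 t) (l02 (g11 t)) = 0 := by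
      rw [← a4, ← lr2, hd, map_zero, map_zero]
    have e3 : g11 t = 0 := H0 _ (t11 t htC) e1 e2
    rw [hvt, map_add, LinearMap.add_apply, la (r00 s), lr0, symm, N1 _ (u00 s hs), zero_add, lr2, a4,
      e3, map_zero, LinearMap.zero_apply]
  -- step 1
  have step1 : ∃ y ∈ C22, l13 (r02 m) = g24 (l22 y) := by
    obtain ⟨t0, ht0, e0⟩ := top1 _ (s02 m hm)
    let U : Submodule ℚ V11 :=
      { carrier := {t | t ∈ C11 ∧ ∃ y ∈ C22, l13 (l11 t) = g24 (l22 y)}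
        zero_mem' := ⟨C11.zero_mem, 0, C22.zero_mem, by simp only [map_zero]⟩
        add_mem' := by
          rintro a b ⟨ha, y, hy, e⟩ ⟨hb, y', hy', e'⟩
          exact ⟨C11.add_mem ha hb, y + y', C22.add_mem hy hy', by simp only [map_add, e, e']⟩
        smul_mem' := by
          rintro c a ⟨ha, y, hy, e⟩
          refine ⟨C11.smul_mem c ha, c • y, C22.smul_mem c hy, ?_⟩
          have h1 : c • a = (c : E) • a := (Rat.cast_smul_eq_qsmul E c a).symm
          have h2 : c • y = (c : E) • y := (Rat.cast_smul_eq_qsmul E c y).symm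
          rw [h1, h2]
          simp only [map_smul, e] }
    obtain ⟨u, hu, h⟩ := L1 U (fun t ht => ht.1) t0 ht0
    set v := t0 - u with hv
    have hvC : v ∈ C11 := C11.sub_mem ht0 hu.1
    have hrv : r11 v = 0 := by
      obtain ⟨t1, ht1, e1⟩ := top2 _ (s11 v hvC)
      have h1 : t1 ∈ U := ⟨ht1, r11 v, s11 v hvC, e1.symm⟩
      apply pos2 _ (s11 v hvC)
      rw [← a1, e1, symb]
      exact h t1 h1
    have hvv : p15 v (l13 (l11 v)) = 0 := by
      have h1 : p15 v (l13 (l11 v)) = p15 v (l13 (l11 t0)) - p15 v (l13 (l11 u)) := by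
        rw [← map_sub, ← map_sub, ← map_sub]
      rw [h1, ← e0, step0 v hvC hrv, symb v u]
      have h2 : p15 u (l13 (l11 v)) = 0 := h u hu
      rw [h2, sub_zero]
    have hv0 : v = 0 := pos1 v hvC hvv
    obtain ⟨y, hy, e⟩ := hu.2
    refine ⟨y, hy, ?_⟩
    rw [e0, ← e, sub_eq_zero.1 hv0]
  -- step 2
  obtain ⟨y2, hy2, e2⟩ := step1
  let K : Submodule ℚ V22 :=
    { carrier := {k | k ∈ C22 ∧ r22 k = 0}
      zero_mem' := ⟨C22.zero_mem, map_zero _⟩
      add_mem' := by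
        rintro a b ⟨ha, e⟩ ⟨hb, e'⟩
        exact ⟨C22.add_mem ha hb, by rw [map_add, e, e', add_zero]⟩
      smul_mem' := by
        rintro c a ⟨ha, e⟩
        refine ⟨C22.smul_mem c ha, ?_⟩
        have h1 : c • a = (c : E) • a := (Rat.cast_smul_eq_qsmul E c a).symm
        rw [h1, map_smul, e, smul_zero] }
  obtain ⟨k, hk, h⟩ := L2 K (fun t ht => ht.1) y2 hy2
  have e3 : g24 (l22 (y2 - k)) = 0 := by
    apply n11
    intro t ht
    rw [a1]
    exact h _ ⟨s11 t ht, rr3 t⟩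
  have e4 : l13 (r02 m) = g24 (l22 k) := by
    rw [e2]
    rw [map_sub, map_sub, sub_eq_zero] at e3
    exact e3
  refine ⟨k, hk.1, hk.2, ?_⟩
  -- step 3
  have hz : r02 m - g22 k = 0 := by
    apply H1 _ (C13.sub_mem (s02 m hm) (t22 k hk.1))
    · rw [map_sub, e4, lg2, sub_self]
    · have h1 : r13 (r02 m - g22 k) = 0 := by rw [map_sub, rr2, rg k hk.2, sub_self]
      have h2 : p33 (r02 m - g22 k) (g22 k) = 0 := a3 _ _ h1
      have h3 : p33 (r02 m) (g22 k) = 0 := a3 _ _ (rr2 m)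
      have h4 : p33 (r02 m - g22 k) (r02 m) = 0 := by
        rw [map_sub, LinearMap.sub_apply, N1 m hm, symm, h3, sub_zero]
      rw [map_sub (p33 (r02 m - g22 k)), h4, h2, sub_zero]
  exact sub_eq_zero.1 hz

end

variable {E : Type} [Field E] [CharZero E] {D : Strata E} {N : ℕ}

/-- the Tate part -/
theorem key_tate' (hC : D.IsComplex) (hL : D.IsLefschetz (N + 3)) (hd : D.IsDuality (N + 3))
    (A : D.Cycles)
    (hA : A.Stable) (hc : A.Components (N + 3)) (hr : A.Rational (N + 3))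
    (hH : A.HodgeIndex (N + 3))
    (m : D.V 0 2) (hm : m ∈ A.span 0 2) (h0 : gam (rho m) = 0) :
    ∃ k : D.V 2 2, rho k = 0 ∧ rho m = gam k := by
  letI : ∀ a w, Module ℚ (D.V a w) := fun a w => Module.compHom _ (algebraMap ℚ E)
  let Cq : ∀ a w, Submodule ℚ (D.V a w) := fun a w =>
    { (A.C a w) with
      smul_mem' := fun r x hx => A.smul a w r x hx }
  have hfin : ∀ a, FiniteDimensional ℚ (Cq a a) := by
    intro a
    obtain ⟨s, hs⟩ := hc.finite a
    have h1 : Cq a a ≤ Submodule.span ℚ (s : Set (D.V a a)) := by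
      intro x hx
      obtain ⟨c, hc⟩ := hs x hx
      rw [hc]
      exact Submodule.sum_mem _ fun y hy => Submodule.smul_mem _ (c y) (Submodule.subset_span hy)
    exact Submodule.finiteDimensional_of_le h1
  have := hfin 1
  have := hfin 2
  let u : ℕ := 2 + 2 * (N + 1)
  have e1 : 3 + 2 * (N + 1) = u + 1 := by change 3 + 2 * (N + 1) = 2 + 2 * (N + 1) + 1; ring
  have e2 : 3 + 2 * N + 1 = u := by change 3 + 2 * N + 1 = 2 + 2 * (N + 1); ring
  let r00 : D.V 0 0 →ₗ[E] D.V 1 1 := D.res 0 0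
  let r02 : D.V 0 2 →ₗ[E] D.V 1 3 := D.res 0 2
  let r04 : D.V 0 u →ₗ[E] D.V 1 (u + 1) := D.res 0 u
  let r11 : D.V 1 1 →ₗ[E] D.V 2 2 := D.res 1 1
  let r13 : D.V 1 3 →ₗ[E] D.V 2 4 := D.res 1 3
  let r22 : D.V 2 2 →ₗ[E] D.V 3 3 := D.res 2 2
  let g11 : D.V 1 1 →ₗ[E] D.V 0 2 := D.gys 0 1
  let g13 : D.V 1 3 →ₗ[E] D.V 0 u :=
    (tr e2).toLinearMap.comp ((D.gys 0 (3 + 2 * N)).comp (powM D N 1 3))
  let g15 : D.V 1 (u + 1) →ₗ[E] D.V 0 (u + 2) := D.gys 0 (u + 1)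
  let g22 : D.V 2 2 →ₗ[E] D.V 1 3 := D.gys 1 2
  let g24 : D.V 2 u →ₗ[E] D.V 1 (u + 1) := D.gys 1 u
  let l00 : D.V 0 0 →ₗ[E] D.V 0 2 := D.lef 0 0
  let l02 : D.V 0 2 →ₗ[E] D.V 0 u := powM D (N + 1) 0 2
  let l04 : D.V 0 u →ₗ[E] D.V 0 (u + 2) := D.lef 0 u
  let l11 : D.V 1 1 →ₗ[E] D.V 1 3 := D.lef 1 1
  let l13 : D.V 1 3 →ₗ[E] D.V 1 (u + 1) := (tr e1).toLinearMap.comp (powM D (N + 1) 1 3)
  let l22 : D.V 2 2 →ₗ[E] D.V 2 u := powM D (N + 1) 2 2
  let p33 : D.V 1 3 →ₗ[E] D.V 1 3 →ₗ[E] E := (D.pair 1 3 (3 + 2 * N)).compl₂ (powM D N 1 3)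
  have hp33 : ∀ x y, p33 x y = ip x (pow N y) := fun x y => rfl
  have hl13 : ∀ x, l13 x = tr e1 (pow (N + 1) x) := fun x => rfl
  have hg13 : ∀ x, g13 x = tr e2 (gam (pow N x)) := fun x => rfl
  have symm33 : ∀ x y : D.V 1 3, p33 x y = p33 y x := by
    intro x y
    rw [hp33, hp33, ← ip_pow hd, hd.symm]
    have : Even (3 + 2 * N + 1) := ⟨N + 2, by ring⟩
    rw [this.neg_one_pow, one_mul]
  have symm1 : ∀ (w : ℕ), Odd w → ∀ (v : ℕ) (x : D.V 1 w) (y : D.V 1 v), ip x y = ip y x := by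
    intro w hw v x y
    rw [hd.symm, (hw.add_odd (by decide : Odd 1)).neg_one_pow, one_mul]
  have symm0 : ∀ (w : ℕ), Even w → ∀ (v : ℕ) (x : D.V 0 w) (y : D.V 0 v), ip x y = ip y x := by
    intro w hw v x y
    rw [hd.symm, add_zero, hw.neg_one_pow, one_mul]
  have hratpos : ∀ r : ℚ, (r : E) = 0 → r = 0 := fun r h => Rat.cast_eq_zero.1 h
  have n11 : ∀ y : D.V 1 (u + 1), (∀ t ∈ Cq 1 1, D.pair 1 1 (u + 1) t y = 0) → y = 0 := by
    intro y hy
    apply hd.nondeg 1 (u + 1) 1 (by change 2 + 2 * (N + 1) + 1 + 1 = _; ring) y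
    intro t
    have h1 : t ∈ Submodule.span E (A.C 1 1 : Set (D.V 1 1)) := by
      have := hc.span 1
      unfold Strata.Cycles.span at this
      rw [this]
      exact Submodule.mem_top
    have h2 : Submodule.span E (A.C 1 1 : Set (D.V 1 1)) ≤
        LinearMap.ker (D.pair 1 (u + 1) 1 y) := by
      rw [Submodule.span_le]
      intro t ht
      rw [SetLike.mem_coe, LinearMap.mem_ker]
      exact (symm1 1 (by decide) _ t y).symm.trans (hy t ht)
    exact h2 h1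
  have halg13 : ∀ z : D.V 1 3, A.Alg z → A.Alg (l13 z) := by
    intro z hz
    rw [hl13]
    have : ∀ {w w' : ℕ} (h : w = w') (x : D.V 1 w), A.Alg x → A.Alg (tr h x) := by
      intro w w' h x hx
      subst h
      exact hx
    exact this _ _ (alg_pow hA _ hz)
  have rat1 : ∀ x ∈ Cq 1 1, ∀ y ∈ Cq 1 1, ∃ r : ℚ, D.pair 1 1 (u + 1) x (l13 (l11 y)) = r :=
    fun x hx y hy => hr 1 1 (u + 1) (by change 1 + (2 + 2 * (N + 1) + 1) = _; ring) x _ hx
      (halg13 _ (hA.lef 1 1 _ hy))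
  have hpow1 : ∀ x : D.V 1 1, ip x (l13 (l11 x)) = ip x (pow (N + 3 - 1) x) := by
    intro x
    change ip x (l13 (lam x)) = ip x (pow (N + 2) x)
    rw [hl13, pow_lam, ip_tr_right, ip_tr_right]
  have pos1 : ∀ x ∈ Cq 1 1, D.pair 1 1 (u + 1) x (l13 (l11 x)) = 0 → x = 0 := by
    intro x hx h
    by_contra hne
    obtain ⟨r, hr0, hr1⟩ := hc.pos 1 (by omega) x hx hne
    have h2 : (r : E) = 0 := by
      rw [← hr1, ← hpow1]
      exact h
    exact hr0.ne' (hratpos r h2)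
  have htop : ∀ y : D.V 1 (u + 1), A.Alg y → ∃ t ∈ Cq 1 1, y = l13 (l11 t) := by
    intro y hy
    obtain ⟨t, ht, h⟩ := riesz_of_pos (D.pair 1 1 (u + 1)) (l13.comp l11) (Cq 1 1) rat1 pos1 y
      (fun x hx => hr 1 1 (u + 1) (by change 1 + (2 + 2 * (N + 1) + 1) = _; ring) x y hx hy)
    refine ⟨t, ht, sub_eq_zero.1 (n11 _ fun x hx => ?_)⟩
    rw [map_sub, h x hx]
    exact sub_self _
  have main : ∀ c ∈ Cq 0 2, (∀ m' ∈ Cq 0 2, p33 (r02 c) (r02 m') = 0) →
      ∃ k ∈ Cq 2 2, r22 k = 0 ∧ r02 c = g22 k := by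
    intro c hcc hN
    refine rational_part' r00 r02 r04 r11 r13 r22 g11 g13 g15 g22 g24 l00 l02 l04 l11 l13 l22
      (D.pair 0 0 (u + 2)) (D.pair 0 2 u) (D.pair 1 1 (u + 1)) p33 (D.pair 2 2 u)
      (Cq 0 0) (Cq 1 1) (Cq 2 2) (Cq 0 2) (Cq 1 3)
      (hC.res_res 0 0) (hC.res_res 0 2) (hC.res_res 1 1) (hC.gys_res 0 1) ?rg
      (hL.lef_res 0 0) ?lr2 ?lg1 ?lg3 ?lg2
      (hd.adj 0 0 (u + 1)) ?a4 (fun t y => (hd.adj 1 1 u t y).symm) ?a3
      ?la symm33 ?n11 ?n00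
      (hA.res 0 0) (hA.res 1 1) (hA.gys 0 1) (hA.lef 0 0) (hA.res 0 2) (hA.gys 1 2)
      ?rat1 ?rat2 ?pos1 ?pos2 ?top1 ?top2 ?H0 ?H1 c hcc hN
    case rg =>
      intro k hk
      have h1 : gam (rho k) + rho (gam k) = 0 := hC.gys_res 1 2 k
      have h2 : gam (rho k) = 0 := by
        have h3 : rho k = 0 := hk
        rw [h3]
        exact map_zero (D.gys 2 3)
      rw [h2, zero_add] at h1
      exact h1
    case lr2 =>
      intro x
      change l13 (rho x) = rho (pow (N + 1) x)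
      rw [hl13, pow_rho hL, tr_tr]
      rfl
    case lg1 =>
      intro x
      change pow (N + 1) (gam x) = g13 (lam x)
      rw [hg13, pow_lam, gam_tr, tr_tr, pow_gam hL]
    case lg3 =>
      intro x
      change lam (g13 x) = gam (l13 x)
      rw [hg13, hl13, lam_tr, gam_tr, hL.lef_gys]
      rfl
    case lg2 =>
      intro x
      change l13 (gam x) = gam (pow (N + 1) x)
      rw [hl13, pow_gam hL, tr_tr]
      rfl
    case a4 =>
      intro t w
      change ip t (rho w) = ip (gam t) w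
      rw [adj' hd]
    case a3 =>
      intro z k hz
      have h2 : rho z = 0 := hz
      change p33 z (gam k) = 0
      rw [hp33, pow_gam hL, ip_tr_right, ← hd.adj, h2, ip_zero_left]
    case la =>
      intro t z
      change ip t (l13 z) = p33 (lam t) z
      rw [hl13, hp33, ip_tr_right, ip_lam hd]
      rfl
    case n11 => exact n11
    case n00 =>
      intro y hy
      apply hd.nondeg 0 (u + 2) 0 (by change 2 + 2 * (N + 1) + 2 + 0 = _; ring) y
      intro t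
      have h1 : t ∈ Submodule.span E (A.C 0 0 : Set (D.V 0 0)) := by
        have := hc.span 0
        unfold Strata.Cycles.span at this
        rw [this]
        exact Submodule.mem_top
      have h2 : Submodule.span E (A.C 0 0 : Set (D.V 0 0)) ≤
          LinearMap.ker (D.pair 0 (u + 2) 0 y) := by
        rw [Submodule.span_le]
        intro t ht
        rw [SetLike.mem_coe, LinearMap.mem_ker]
        exact (symm0 0 (by decide) _ t y).symm.trans (hy t ht)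
      exact h2 h1
    case rat1 => exact rat1
    case rat2 =>
      intro x hx y hy
      exact hr 2 2 u (by change 2 + (2 + 2 * (N + 1)) = _; ring) x _ hx (alg_pow hA (N + 1) hy)
    case pos1 => exact pos1
    case pos2 =>
      intro x hx h
      by_contra hne
      obtain ⟨r, hr0, hr1⟩ := hc.pos 2 (by omega) x hx hne
      have h2 : (r : E) = 0 := by rw [← hr1]; exact h
      exact hr0.ne' (hratpos r h2)
    case top1 =>
      intro z hz
      exact htop _ (halg13 _ hz)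
    case top2 =>
      intro k hk
      exact htop _ (hA.gys 1 u _ (alg_pow hA (N + 1) hk))
    case H0 =>
      intro d hdC h1 h2
      by_contra hne
      obtain ⟨r, hr0, hr1⟩ := hH 0 (by omega) d hdC h1 hne
      have h3 : (r : E) = 0 := by rw [← hr1]; exact h2
      exact hr0.ne (hratpos r h3)
    case H1 =>
      intro z hz h1 h2
      by_contra hne
      have h1' : pow (N + 1) z = 0 := (tr e1).injective (h1.trans (map_zero _).symm)
      obtain ⟨r, hr0, hr1⟩ := hH 1 (by omega) z hz h1' hne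
      have h3 : (r : E) = 0 := by rw [← hr1]; exact h2
      exact hr0.ne (hratpos r h3)
  have hN : ∀ m' : D.V 0 2, p33 (r02 m) (r02 m') = 0 := by
    intro m'
    change p33 (rho m) (rho m') = 0
    rw [hp33, pow_rho hL, ip_tr_right, ← adj' hd, h0, ip_zero_left]
  have hspan := span_descent (Cq 0 2)
    (fun j : Cq 0 2 => (p33.flip (r02 j)).comp r02)
    (fun j c hcc => hr 1 3 (3 + 2 * N) (by ring) _ _ (hA.res 0 2 _ hcc)
      (alg_pow hA N (hA.res 0 2 _ j.2))) m hm (fun j => hN j)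
  have hle : Submodule.span E {c | c ∈ Cq 0 2 ∧
      ∀ j : Cq 0 2, ((p33.flip (r02 j)).comp r02) c = 0} ≤
      ((LinearMap.ker r22).map g22).comap r02 := by
    rw [Submodule.span_le]
    rintro c ⟨hcc, hj⟩
    obtain ⟨k, -, hk, e⟩ := main c hcc fun m' hm' => hj ⟨m', hm'⟩
    exact ⟨k, hk, e.symm⟩
  obtain ⟨k, hk, e⟩ := hle hspan
  exact ⟨k, hk, e.symm⟩

/-- `H^3` in all dimensions -/
theorem degree_three {n q : ℕ} (hn : 3 ≤ n) (hq : q ≠ 0) (hD : D.IsSemistable n q) (A : D.Cycles)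
    (hA : A.IsGeometric n) (hT : A.TateDivisors q 0) (P₁ P₂ : ℤ[X])
    (h₁ : (D.frob 0 2).charpoly = P₁.map (Int.castRingHom E))
    (h₂ : (D.frob 1 3).charpoly = P₂.map (Int.castRingHom E)) (hs : SimpleCommonRoots P₁ P₂ q) :
    D.MonodromyWeight 3 1 := by
  obtain ⟨N, rfl⟩ : ∃ N, n = N + 3 := ⟨n - 3, by omega⟩
  refine mw_of_fill hD.complex hD.duality hD.bounded hD.generic 0 2 hn fun m hm => ?_
  have hP₁ : P₁ ≠ 0 := by
    rintro rfl
    rw [Polynomial.map_zero] at h₁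
    exact (LinearMap.charpoly_monic (D.frob 0 2)).ne_zero h₁
  obtain ⟨m0, h0, h1⟩ := key_non_tate' hq hD.lefschetz hD.frobenius hD.split hD.generic
    (fun f hf hfq hf1 => by
      rw [h₂]
      rw [h₁] at hf1
      exact simple_of_common hs hP₁ f hf hfq hf1) m hm
  obtain ⟨k, hk1, hk2⟩ := key_tate' hD.complex hD.lefschetz hD.duality A hA.stable hA.components
    hA.rational hA.hodge m0 (hT h0) (by rw [← h1]; exact hm)
  exact ⟨k, (h1.trans hk2).symm, hk1⟩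

end Pool.Agent.W522.M
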